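import Pool.Agent.W211.AF.Stm2

/-! Subtask AF-ELL2 for helper211. -/

set_option autoImplicit false

namespace Pool.Agent.W804.AFEll2

open FreeGroup
open Pool.Agent.W211.AF
open Pool.Agent.Results.MP_11aa79_an.NotFactor
open Pool.Agent.Results.MP_11aa79_an.NotFactor.Kap
open Pool.Agent.Results.MP_11aa79_an.NotFactor.Fac

/-- the word of `t` starts with the letter `(j, s)` -/
def S (j : Fin 2) (s : Bool) (t : G) : Prop := t.toWord.head? = some (j, s)

lemma S_disj {j j' : Fin 2} {s s' : Bool} {t : G} (h : S j s t) (h' : S j' s' t) :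
    j = j' ∧ s = s' := by
  unfold S at h h'
  rw [h] at h'
  simpa using h'

lemma S_mul (j : Fin 2) (h : G) : S j true (of j * h) ↔ ¬ S j false h := by
  unfold S
  rw [toWord_mul, toWord_of]
  have hred : reduce h.toWord = h.toWord := reduce_toWord h
  have hisr : IsReduced h.toWord := isReduced_toWord
  rw [List.singleton_append, reduce.cons, hred]
  cases hw : h.toWord with
  | nil => simp
  | cons hd tl =>
    rw [hw] at hisr
    simp only [List.head?_cons, Option.some.injEq]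
    by_cases hc : hd = (j, false)
    · subst hc
      simp only [Bool.not_false, and_self, ↓reduceIte, not_true_eq_false, iff_false]
      intro hcon
      cases tl with
      | nil => simp at hcon
      | cons b tl' =>
        simp only [List.head?_cons, Option.some.injEq] at hcon
        subst hcon
        unfold FreeGroup.IsReduced at hisr
        rw [List.isChain_cons_cons] at hisr
        have := hisr.1
        simp at this
    · have hne : ¬ (j = hd.1 ∧ true = !hd.2) := by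
        rintro ⟨h1, h2⟩
        apply hc
        obtain ⟨x, y⟩ := hd
        simp at h1 h2
        simp [h1, h2]
      simp only [hne, if_false, List.head?_cons, hc, not_false_eq_true]

open Classical in
/-- restriction to a set -/
noncomputable def res (P : G → Prop) : H G →L[ℂ] H G :=
  LinearMap.mkContinuous
    { toFun := fun f => ⟨fun x => if P x then f x else 0, by
        have h : Summable (fun x => ‖(if P x then f x else 0 : ℂ)‖ ^ 2) := by
          refine Summable.of_nonneg_of_le (fun x => by positivity) (fun x => ?_)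
            ((memH_iff _).1 (lp.memℓp f))
          split_ifs
          · exact le_rfl
          · simp
        exact (memH_iff _).2 h⟩
      map_add' := fun f g => by
        ext x
        by_cases h : P x <;> simp [h]
      map_smul' := fun c f => by
        ext x
        by_cases h : P x <;> simp [h] }
    1 (fun f => by
      rw [one_mul]
      have h1 : (0 : ℝ) ≤ ‖f‖ := norm_nonneg f
      refine le_of_sq_le_sq ?_ h1
      rw [norm_sq, norm_sq]
      have hs : Summable (fun x => ‖f x‖ ^ 2) := (memH_iff _).1 (lp.memℓp f)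
      have hle : ∀ x, ‖(if P x then f x else 0 : ℂ)‖ ^ 2 ≤ ‖f x‖ ^ 2 := by
        intro x
        split_ifs
        · exact le_rfl
        · simp
      exact Summable.tsum_le_tsum hle
        (Summable.of_nonneg_of_le (fun x => by positivity) hle hs) hs)

open Classical in
lemma res_apply (P : G → Prop) (f : H G) (x : G) : res P f x = if P x then f x else 0 := rfl

/-- left translation -/
noncomputable def lt (j : Fin 2) : H G →L[ℂ] H G :=
  (tr (Equiv.mulLeft (of j : G)⁻¹)).toContinuousLinearMap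

lemma lt_apply (j : Fin 2) (f : H G) (x : G) : lt j f x = f ((of j)⁻¹ * x) := rfl

noncomputable def U (A B : ℂ) : H G →L[ℂ] H G :=
  A • (res (S 0 true)).comp (lt 0) + B • (res (S 1 true)).comp (lt 1)

noncomputable def D (A B : ℂ) : H G →L[ℂ] H G :=
  A • (res (fun t => ¬ S 0 true t)).comp (lt 0) + B • (res (fun t => ¬ S 1 true t)).comp (lt 1)

open Classical in
lemma U_apply (A B : ℂ) (f : H G) (t : G) : U A B f t =
    A * (if S 0 true t then f ((of 0)⁻¹ * t) else 0)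
      + B * (if S 1 true t then f ((of 1)⁻¹ * t) else 0) := rfl

open Classical in
lemma D_apply (A B : ℂ) (f : H G) (t : G) : D A B f t =
    A * (if ¬ S 0 true t then f ((of 0)⁻¹ * t) else 0)
      + B * (if ¬ S 1 true t then f ((of 1)⁻¹ * t) else 0) := by
  have h : D A B f t = A * (res (fun t => ¬ S 0 true t) (lt 0 f) t)
      + B * (res (fun t => ¬ S 1 true t) (lt 1 f) t) := rfl
  rw [h, res_apply, res_apply, lt_apply, lt_apply]
  by_cases h0 : S 0 true t <;> by_cases h1 : S 1 true t <;> simp [h0, h1]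

lemma summ (f : H G) : Summable (fun x => ‖f x‖ ^ 2) := (memH_iff _).1 (lp.memℓp f)

lemma summ' (j : Fin 2) (f : H G) : Summable (fun x => ‖f ((of j)⁻¹ * x)‖ ^ 2) :=
  summ (lt j f)

open Classical in
lemma U_norm {A B : ℂ} {b : ℝ} (hb : 0 ≤ b) (hA : ‖A‖ ^ 2 = b ^ 2 / 2) (hB : ‖B‖ ^ 2 = b ^ 2 / 2) :
    ‖U A B‖ ≤ b := by
  refine ContinuousLinearMap.opNorm_le_bound _ hb (fun f => ?_)
  refine le_of_sq_le_sq ?_ (mul_nonneg hb (norm_nonneg _))
  rw [mul_pow, norm_sq, norm_sq]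
  have e0 : ∑' t, ‖f ((of (0 : Fin 2))⁻¹ * t)‖ ^ 2 = ∑' t, ‖f t‖ ^ 2 :=
    (Equiv.mulLeft ((of (0 : Fin 2))⁻¹ : G)).tsum_eq (fun x => ‖f x‖ ^ 2)
  have e1 : ∑' t, ‖f ((of (1 : Fin 2))⁻¹ * t)‖ ^ 2 = ∑' t, ‖f t‖ ^ 2 :=
    (Equiv.mulLeft ((of (1 : Fin 2))⁻¹ : G)).tsum_eq (fun x => ‖f x‖ ^ 2)
  have hle : ∀ t, ‖U A B f t‖ ^ 2 ≤ b ^ 2 / 2 * ‖f ((of (0 : Fin 2))⁻¹ * t)‖ ^ 2
      + b ^ 2 / 2 * ‖f ((of (1 : Fin 2))⁻¹ * t)‖ ^ 2 := by
    intro t
    rw [U_apply]
    have hn0 : 0 ≤ b ^ 2 / 2 * ‖f ((of (0 : Fin 2))⁻¹ * t)‖ ^ 2 := by positivity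
    have hn1 : 0 ≤ b ^ 2 / 2 * ‖f ((of (1 : Fin 2))⁻¹ * t)‖ ^ 2 := by positivity
    by_cases h0 : S 0 true t
    · have h1 : ¬ S 1 true t := fun h => by
        have := (S_disj h0 h).1
        exact absurd this (by decide)
      rw [if_pos h0, if_neg h1, mul_zero, add_zero, norm_mul, mul_pow, hA]
      linarith
    · rw [if_neg h0, mul_zero, zero_add]
      by_cases h1 : S 1 true t
      · rw [if_pos h1, norm_mul, mul_pow, hB]
        linarith
      · rw [if_neg h1, mul_zero, norm_zero]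
        simp only [ne_eq, OfNat.ofNat_ne_zero, not_false_eq_true, zero_pow]
        linarith
  have hs : Summable (fun t => b ^ 2 / 2 * ‖f ((of (0 : Fin 2))⁻¹ * t)‖ ^ 2
      + b ^ 2 / 2 * ‖f ((of (1 : Fin 2))⁻¹ * t)‖ ^ 2) :=
    ((summ' 0 f).mul_left _).add ((summ' 1 f).mul_left _)
  refine (Summable.tsum_le_tsum hle (summ _) hs).trans ?_
  rw [((summ' 0 f).mul_left _).tsum_add ((summ' 1 f).mul_left _), tsum_mul_left, tsum_mul_left,
    e0, e1]
  linarith

open Classical in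
lemma D_norm {A B : ℂ} {b : ℝ} (hb : 0 ≤ b) (hA : ‖A‖ ^ 2 = b ^ 2 / 2) (hB : ‖B‖ ^ 2 = b ^ 2 / 2) :
    ‖D A B‖ ≤ b := by
  refine ContinuousLinearMap.opNorm_le_bound _ hb (fun f => ?_)
  refine le_of_sq_le_sq ?_ (mul_nonneg hb (norm_nonneg _))
  rw [mul_pow, norm_sq, norm_sq]
  set F : Fin 2 → G → ℝ := fun j h => if S j false h then ‖f h‖ ^ 2 else 0 with hF
  have hFs : ∀ j, Summable (F j) := by
    intro j
    refine Summable.of_nonneg_of_le (fun x => ?_) (fun x => ?_) (summ f)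
    · simp only [hF]; split_ifs <;> positivity
    · simp only [hF]; split_ifs
      · exact le_rfl
      · positivity
  have hFt : ∀ j, Summable (fun t => F j ((of j)⁻¹ * t)) := fun j =>
    ((Equiv.mulLeft ((of j)⁻¹ : G)).summable_iff (f := F j)).2 (hFs j)
  have e : ∀ j, ∑' t, F j ((of j)⁻¹ * t) = ∑' t, F j t := fun j =>
    (Equiv.mulLeft ((of j)⁻¹ : G)).tsum_eq (F j)
  have key : ∀ (j : Fin 2) (t : G), ‖(if ¬ S j true t then f ((of j)⁻¹ * t) else 0 : ℂ)‖ ^ 2
      = F j ((of j)⁻¹ * t) := by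
    intro j t
    have h1 := S_mul j ((of j)⁻¹ * t)
    rw [mul_inv_cancel_left] at h1
    simp only [hF]
    by_cases h : S j false ((of j)⁻¹ * t)
    · have h2 : ¬ S j true t := by rw [h1]; exact fun hcon => hcon h
      rw [if_pos h2, if_pos h]
    · have h2 : ¬ ¬ S j true t := by rw [h1]; exact fun hcon => hcon h
      rw [if_neg h2, if_neg h]
      simp
  have hle : ∀ t, ‖D A B f t‖ ^ 2 ≤ b ^ 2 * (F 0 ((of 0)⁻¹ * t) + F 1 ((of 1)⁻¹ * t)) := by
    intro t
    rw [D_apply]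
    have k0 := key 0 t
    have k1 := key 1 t
    set x : ℂ := (if ¬ S 0 true t then f ((of 0)⁻¹ * t) else 0 : ℂ) with hx
    set y : ℂ := (if ¬ S 1 true t then f ((of 1)⁻¹ * t) else 0 : ℂ) with hy
    rw [← k0, ← k1]
    have h1 : ‖A * x + B * y‖ ≤ ‖A‖ * ‖x‖ + ‖B‖ * ‖y‖ := by
      refine (norm_add_le _ _).trans ?_
      rw [norm_mul, norm_mul]
    have h2 : ‖A * x + B * y‖ ^ 2 ≤ (‖A‖ * ‖x‖ + ‖B‖ * ‖y‖) ^ 2 :=
      pow_le_pow_left₀ (norm_nonneg _) h1 2
    have h3 : (‖A‖ * ‖x‖ + ‖B‖ * ‖y‖) ^ 2 ≤ (‖A‖ ^ 2 + ‖B‖ ^ 2) * (‖x‖ ^ 2 + ‖y‖ ^ 2) := by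
      nlinarith [sq_nonneg (‖A‖ * ‖y‖ - ‖B‖ * ‖x‖)]
    have h4 : ‖A‖ ^ 2 + ‖B‖ ^ 2 = b ^ 2 := by linarith
    rw [h4] at h3
    exact h2.trans h3
  have hs : Summable (fun t => b ^ 2 * (F 0 ((of 0)⁻¹ * t) + F 1 ((of 1)⁻¹ * t))) :=
    ((hFt 0).add (hFt 1)).mul_left _
  refine (Summable.tsum_le_tsum hle (summ _) hs).trans ?_
  rw [tsum_mul_left, (hFt 0).tsum_add (hFt 1), e, e, ← (hFs 0).tsum_add (hFs 1)]
  refine mul_le_mul_of_nonneg_left ?_ (by positivity)
  refine Summable.tsum_le_tsum (fun t => ?_) ((hFs 0).add (hFs 1)) (summ f)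
  simp only [hF]
  by_cases h0 : S 0 false t
  · have h1 : ¬ S 1 false t := fun h => by
      have := (S_disj h0 h).1
      exact absurd this (by decide)
    rw [if_pos h0, if_neg h1, add_zero]
  · rw [if_neg h0, zero_add]
    split_ifs
    · exact le_rfl
    · positivity

lemma DU (A B : ℂ) : D A B * U A B = 0 := by
  classical
  ext f t
  show D A B (U A B f) t = 0
  have key : ∀ (j : Fin 2), (if ¬ S j true t then U A B f ((of j)⁻¹ * t) else 0 : ℂ) = 0 := by
    intro j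
    by_cases h : S j true t
    · rw [if_neg (not_not.2 h)]
    · rw [if_pos h]
      have h1 := S_mul j ((of j)⁻¹ * t)
      rw [mul_inv_cancel_left] at h1
      have h2 : S j false ((of j)⁻¹ * t) := by
        by_contra hcon
        exact h (h1.2 hcon)
      have h3 : ∀ i : Fin 2, ¬ S i true ((of j)⁻¹ * t) := by
        intro i hi
        have := (S_disj h2 hi).2
        exact absurd this (by decide)
      rw [U_apply, if_neg (h3 0), if_neg (h3 1), mul_zero, mul_zero, add_zero]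
  rw [D_apply, key, key, mul_zero, mul_zero, add_zero]

lemma zz_summable (A B : ℂ) : Summable fun g : G => ‖zz (0 : Fin 2) 1 A B g‖ := by
  refine summable_of_hasFiniteSupport ?_
  refine (Set.toFinite {(1 : G), of 0, of 1}).subset ?_
  intro g hg
  by_contra hcon
  apply hg
  simp only [Set.mem_insert_iff, Set.mem_singleton_iff, not_or] at hcon
  simp [zz, hcon.1, hcon.2.1, hcon.2.2]

lemma conv_zz (A B : ℂ) : conv (fun g : G => zz (0 : Fin 2) 1 A B g) = 1 - (U A B + D A B) := by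
  classical
  ext f t
  rw [conv_apply (zz_summable A B)]
  rw [tsum_zz (by decide) A B f t]
  show _ = f t - (U A B f t + D A B f t)
  rw [U_apply, D_apply]
  by_cases h0 : S 0 true t <;> by_cases h1 : S 1 true t <;> simp [h0, h1] <;> ring

lemma conv_sub' {b c : G → ℂ} (hb : Summable fun g => ‖b g‖) (hc : Summable fun g => ‖c g‖) :
    conv (fun g => b g - c g) = conv b - conv c := by
  unfold conv
  rw [← (summable_conv hb).tsum_sub (summable_conv hc)]
  congr 1
  ext1 g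
  rw [sub_smul]

lemma conv_norm {b : G → ℂ} (hb : Summable fun g => ‖b g‖) : ‖conv b‖ ≤ ∑' g, ‖b g‖ := by
  unfold conv
  refine tsum_of_norm_bounded hb.hasSum (fun g => ?_)
  rw [norm_smul]
  exact mul_le_of_le_one_right (norm_nonneg _) (norm_tr_le _)

lemma inv_norm {x : H G →L[ℂ] H G} {b : ℝ} (hb : b < 1) (hx : ‖x‖ ≤ b) :
    ∃ u : (H G →L[ℂ] H G)ˣ, (u : H G →L[ℂ] H G) = 1 - x ∧
      ‖((u⁻¹ : (H G →L[ℂ] H G)ˣ) : H G →L[ℂ] H G)‖ ≤ (1 - b)⁻¹ := by
  have hlt : ‖x‖ < 1 := lt_of_le_of_lt hx hb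
  refine ⟨Units.oneSub x hlt, rfl, ?_⟩
  have h1 : ((Units.oneSub x hlt)⁻¹ : (H G →L[ℂ] H G)ˣ).val = ∑' n : ℕ, x ^ n := rfl
  rw [h1]
  refine (tsum_geometric_le_of_norm_lt_one x hlt).trans ?_
  have h2 : ‖(1 : H G →L[ℂ] H G)‖ ≤ 1 := ContinuousLinearMap.norm_id_le
  have h3 : (1 - ‖x‖)⁻¹ ≤ (1 - b)⁻¹ := by
    apply inv_anti₀ (by linarith) (by linarith)
  linarith

theorem main : Pool.Agent.W211.AF.S_ELL2 := by
  intro A B hA hB R hR hR1
  set b : ℝ := Real.sqrt (5 / 8) with hb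
  have hb0 : 0 ≤ b := Real.sqrt_nonneg _
  have hb2 : b ^ 2 = 5 / 8 := Real.sq_sqrt (by norm_num)
  have hbl : b ≤ 0.791 := by
    rw [hb]
    rw [Real.sqrt_le_left (by norm_num)]
    norm_num
  have h5 : (Real.sqrt 5 / 4) ^ 2 = b ^ 2 / 2 := by
    rw [div_pow, Real.sq_sqrt (by norm_num), hb2]
    norm_num
  have hA2 : ‖A‖ ^ 2 = b ^ 2 / 2 := by rw [hA, h5]
  have hB2 : ‖B‖ ^ 2 = b ^ 2 / 2 := by rw [hB, h5]
  have hU := U_norm hb0 hA2 hB2
  have hD := D_norm hb0 hA2 hB2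
  have hb1 : b < 1 := by linarith
  obtain ⟨u, hu, hu'⟩ := inv_norm hb1 hU
  obtain ⟨d, hd, hd'⟩ := inv_norm hb1 hD
  have hC : ‖conv R‖ ≤ 1 / 100 := (conv_norm hR).trans hR1
  have hprod : (d : H G →L[ℂ] H G) * u = conv (fun g : G => zz (0 : Fin 2) 1 A B g) := by
    rw [hu, hd, conv_zz]
    have := DU A B
    rw [sub_mul, mul_sub, mul_sub, this]
    simp only [one_mul, mul_one]
    abel
  have hinv : (1 - b)⁻¹ ≤ 4.8 := by
    rw [inv_le_comm₀ (by linarith) (by norm_num)]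
    norm_num
    linarith
  have hsmall : ‖((u⁻¹ : (H G →L[ℂ] H G)ˣ) : H G →L[ℂ] H G) *
      (((d⁻¹ : (H G →L[ℂ] H G)ˣ) : H G →L[ℂ] H G) * conv R)‖ ≤ 1 / 2 := by
    refine (_root_.norm_mul_le _ _).trans ?_
    have h1 : ‖((d⁻¹ : (H G →L[ℂ] H G)ˣ) : H G →L[ℂ] H G) * conv R‖ ≤ 4.8 * (1 / 100) := by
      refine (_root_.norm_mul_le _ _).trans ?_
      exact mul_le_mul (hd'.trans hinv) hC (norm_nonneg _) (by norm_num)
    refine (mul_le_mul (hu'.trans hinv) h1 (norm_nonneg _) (by norm_num)).trans ?_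
    norm_num
  obtain ⟨v, hv, _⟩ := inv_norm (show (1 / 2 : ℝ) < 1 by norm_num) hsmall
  have htot : ((d * u * v : (H G →L[ℂ] H G)ˣ) : H G →L[ℂ] H G) =
      conv (fun g : G => zz (0 : Fin 2) 1 A B g - R g) := by
    rw [conv_sub' (zz_summable A B) hR, ← hprod]
    push_cast
    rw [hv, mul_sub, mul_one]
    congr 1
    rw [mul_assoc, Units.mul_inv_cancel_left, Units.mul_inv_cancel_left]
  refine ⟨((((d * u * v : (H G →L[ℂ] H G)ˣ)⁻¹ : (H G →L[ℂ] H G)ˣ)) : H G →L[ℂ] H G)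
    (lp.single 2 1 1), ?_⟩
  rw [← htot]
  have h9 : ((d * u * v : (H G →L[ℂ] H G)ˣ) : H G →L[ℂ] H G) *
      ((((d * u * v : (H G →L[ℂ] H G)ˣ)⁻¹ : (H G →L[ℂ] H G)ˣ)) : H G →L[ℂ] H G) = 1 :=
    Units.mul_inv _
  have h10 := congrArg (fun T : H G →L[ℂ] H G => T (lp.single 2 1 1)) h9
  exact h10

end Pool.Agent.W804.AFEll2
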