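import Pool.Agent.W823.QT.Stm

set_option autoImplicit false

namespace Pool.Agent.W804.QTQF

open MeasureTheory ProbabilityTheory Filter Topology Pool.Agent.W845.Traps Pool.Agent.W823.QT
open scoped ENNReal NNReal

theorem pos_congr {d : ℕ} (a b : ℕ → Fin d → ℤ) (k : ℕ) (h : ∀ i < k, a i = b i) :
    pos a k = pos b k := by
  unfold pos
  exact Finset.sum_congr rfl fun i hi => h i (Finset.mem_range.1 hi)

theorem pos_flip {d : ℕ} (a : ℕ → Fin d → ℤ) (n k : ℕ) (h : k ≤ n) :
    pos (fun i => if i < n then -(a i) else a i) k = -(pos a k) := by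
  unfold pos
  rw [← Finset.sum_neg_distrib]
  refine Finset.sum_congr rfl fun i hi => ?_
  have := Finset.mem_range.1 hi
  show (if i < n then -(a i) else a i) = -(a i)
  rw [if_pos (by omega)]

theorem main (h1 : MEAS_T) (h2 : FLIP_T) : QF_T := by
  intro d r _ e he
  refine ⟨?_, ?_, ?_⟩
  · intro k z z' hz
    unfold qf
    congr 1
    refine lintegral_congr fun w => ?_
    rw [hz k le_rfl]
    congr 1
    refine Finset.prod_congr rfl fun i hi => ?_
    rw [hz i (Finset.mem_Ioo.1 hi).2.le]
  · intro hr k z
    unfold qf
    congr 1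
    set H : (ℕ → Fin d → ℤ) → ℝ≥0∞ := fun w => (if pos w k = -(z k) then 1 else 0) *
      ∏ i ∈ Finset.Ioo 0 k, (if pos w i = -(z i) then e else 1) with hH
    have hHm : Measurable H := by
      refine h1 d k H fun a b hab => ?_
      rw [hH]
      simp only
      rw [pos_congr a b k hab]
      congr 1
      refine Finset.prod_congr rfl fun i hi => ?_
      rw [pos_congr a b i fun j hj => hab j (lt_trans hj (Finset.mem_Ioo.1 hi).2)]
    rw [← h2 d r hr k H hHm]
    refine lintegral_congr fun w => ?_
    rw [hH]
    simp only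
    rw [pos_flip w k k le_rfl]
    congr 1
    · simp only [neg_inj]
    · refine Finset.prod_congr rfl fun i hi => ?_
      rw [pos_flip w k i (Finset.mem_Ioo.1 hi).2.le]
      simp only [neg_inj]
  · intro k z
    unfold qf pk
    refine mul_le_mul_right ?_ _
    have hm : MeasurableSet {w : ℕ → Fin d → ℤ | pos w k = z k} := by
      have hp : Measurable (fun w : ℕ → Fin d → ℤ => pos w k) := by
        unfold pos
        exact Finset.measurable_fun_sum _ fun i _ => measurable_pi_apply i
      exact hp (measurableSet_singleton (z k))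
    rw [← lintegral_indicator_one hm]
    refine lintegral_mono fun w => ?_
    have hprod : ∏ i ∈ Finset.Ioo 0 k, (if pos w i = z i then e else 1) ≤ 1 := by
      refine Finset.prod_le_one' fun i _ => ?_
      split_ifs
      · exact he
      · exact le_rfl
    calc (if pos w k = z k then (1 : ℝ≥0∞) else 0) *
          ∏ i ∈ Finset.Ioo 0 k, (if pos w i = z i then e else 1)
        ≤ (if pos w k = z k then (1 : ℝ≥0∞) else 0) * 1 := by gcongr
      _ = {w : ℕ → Fin d → ℤ | pos w k = z k}.indicator 1 w := by
          rw [mul_one]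
          simp [Set.indicator]

end Pool.Agent.W804.QTQF
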