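import Mathlib
import Pool.Agent.W25.UB.Stm3

set_option autoImplicit false

namespace Pool.Agent.W804.UBUD

open Finset Filter Topology
open Pool.Agent.H410R2 hiding GP GP_prof GP_cut_some GP_cut_none GP_lip gg_pos gg_le_one gg_anti ee_bound ee_nonneg gg_lip LB_gg LB_ee Sums exists_sums yx wx wxi Br sum_GP_none sum_GP_some sum_GP_some_ee sum_GP_some_one sum_GPr_none sum_GPr_some S1_final QI_final S2_final w_abs_le wmax gg ee I1 I2 IE
open Pool.Agent.H361R2.GM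
open Pool.Agent.H362R2.CM
open Pool.Agent.W25.UN
open Pool.Agent.W25.UB

theorem cw_bd {k : ℕ} (P : Finset ℕ) (hP : ∀ p ∈ P, p.Prime)
    (y : (IP P → Option (Option (Fin k))) → ℝ) (σ : IP P → Option (Option (Fin k))) (C : ℝ)
    (hy : |y σ| ≤ C) :
    |cw (prP P) y σ| ≤ C * mulc (prP P) (fun p => 1 / ((p : ℝ) - 1)) σ := by
  unfold cw mulc
  rw [abs_mul, Finset.abs_prod, mul_comm]
  have h1 : ∏ t : IP P, |cf (prP P t) (σ t)| =
      ∏ t : IP P, (if σ t = none then 1 else (fun p : ℕ => 1 / ((p : ℝ) - 1)) (prP P t)) := by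
    refine Finset.prod_congr rfl fun t _ => ?_
    have h2 : (2 : ℝ) ≤ (prP P t : ℝ) := by exact_mod_cast (hP t.1 t.2).two_le
    have h3 : (0 : ℝ) ≤ 1 / ((prP P t : ℝ) - 1) := by
      apply div_nonneg zero_le_one
      linarith
    cases hσ : σ t with
    | none => simp [cf]
    | some x =>
      simp only [cf, abs_neg, reduceCtorEq, if_false]
      exact abs_of_nonneg h3
  rw [h1]
  refine mul_le_mul_of_nonneg_right hy (Finset.prod_nonneg fun t _ => ?_)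
  have h2 : (2 : ℝ) ≤ (prP P t : ℝ) := by exact_mod_cast (hP t.1 t.2).two_le
  split_ifs
  · exact zero_le_one
  · apply div_nonneg zero_le_one
    linarith

noncomputable def dlt (e : ℕ) : ℝ := if e = 1 then 1 else 0

theorem dlt_one : dlt 1 = 1 := by simp [dlt]

theorem dlt_ne {e : ℕ} (h : e ≠ 1) : dlt e = 0 := by simp [dlt, h]

theorem eq_one {e : ℕ} (h : dlt e ≠ 0) : e = 1 := by
  by_contra h1
  exact h (dlt_ne h1)

theorem triv_ds (Z : ℕ) (hZ : 1 ≤ Z) (m : ℤ) : ds dlt Z m = 1 := by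
  unfold ds
  rw [Finset.sum_eq_single 1]
  · simp [dlt_one]
  · intro e _ he
    rw [dlt_ne he, zero_mul]
  · intro h1
    exact absurd (mem_Icc.2 ⟨le_rfl, hZ⟩) h1

theorem triv_Ev (Z : ℕ) (hZ : 1 ≤ Z) (m : ℤ) : Pool.Agent.W23.PL.Ev dlt Z m = 1 := by
  unfold Pool.Agent.W23.PL.Ev
  rw [Finset.sum_eq_single 1]
  · simp [dlt_one]
  · intro e _ he
    rw [dlt_ne he, zero_mul]
  · intro h1
    exact absurd (mem_Icc.2 ⟨le_rfl, hZ⟩) h1

theorem triv_sum (Z : ℕ) (hZ : 1 ≤ Z) : ∑ d ∈ Icc 1 Z, dlt d / (d : ℝ) = 1 := by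
  rw [Finset.sum_eq_single 1]
  · simp [dlt_one]
  · intro e _ he
    rw [dlt_ne he, zero_div]
  · intro h1
    exact absurd (mem_Icc.2 ⟨le_rfl, hZ⟩) h1

theorem triv_hat (Z : ℕ) (hZ : 1 ≤ Z) : Pool.Agent.W23.PL.hat dlt Z = 1 := triv_sum Z hZ

theorem triv_DW (Pt' : Finset ℕ) (Z : ℕ) (hZ : 1 ≤ Z) (U : ℝ) (hU : 1 ≤ U) :
    Pool.Agent.W23.PL.DW Pt' Z U dlt := by
  refine ⟨fun e => ?_, fun e he => ?_⟩
  · by_cases h : e = 1
    · rw [h, dlt_one, abs_one]; exact hU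
    · rw [dlt_ne h, abs_zero]; linarith
  · have h1 := eq_one he
    subst h1
    refine ⟨squarefree_one, hZ, fun p hp hd => ?_⟩
    exact absurd (Nat.dvd_one.1 hd) hp.one_lt.ne'

theorem triv_RCM (Cl : Finset ℕ) (y : ℝ) (Z : ℕ) (hZ : 1 ≤ Z) (M : ℝ) (hM : 1 ≤ M) :
    RCM Cl y Z M dlt := by
  refine ⟨fun e => ?_, fun e he => ?_⟩
  · by_cases h : e = 1
    · rw [h, dlt_one, abs_one]; exact hM
    · rw [dlt_ne h, abs_zero]; linarith
  · have h1 := eq_one he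
    subst h1
    refine ⟨le_rfl, hZ, fun p hp hd => ?_⟩
    exact absurd (Nat.dvd_one.1 hd) hp.one_lt.ne'

theorem xx_cases (Pt' : Finset ℕ) (m : ℤ) :
    (Pool.Agent.W23.PL.xx Pt' m = 0) ∨
      (Pool.Agent.W23.PL.xx Pt' m = 1 ∧ ∀ p ∈ Pt', ¬ (p : ℤ) ∣ m) := by
  unfold Pool.Agent.W23.PL.xx
  split_ifs with h
  · exact Or.inr ⟨rfl, h⟩
  · exact Or.inl rfl

theorem exists_third {k : ℕ} (hk : 3 ≤ k) (i j : Fin k) : ∃ l : Fin k, i ≠ l ∧ j ≠ l := by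
  have h1 : ({i, j} : Finset (Fin k)).card < (univ : Finset (Fin k)).card := by
    have := Finset.card_le_two (a := i) (b := j)
    rw [Finset.card_univ, Fintype.card_fin]
    omega
  obtain ⟨l, -, hl⟩ := Finset.exists_mem_notMem_of_card_lt_card h1
  simp only [mem_insert, mem_singleton, not_or] at hl
  exact ⟨l, fun h => hl.1 h.symm, fun h => hl.2 h.symm⟩

/-- the final computation -/
theorem calc1 (n2 V' W' b V G Q q I1 I2 ε e3 C1 S MMv vg t ht n4 : ℝ) (k : ℕ) (hk : 2 ≤ k)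
    (hn4 : n4 = 2 * n2) (hn : 0 ≤ n2) (hW : 0 < W')
    (hV' : 0 < V') (hb : 1 ≤ b) (hV : 0 < V) (hV1 : V ≤ 1) (hG : 1 ≤ G) (hε : 0 < ε)
    (hε3 : ε < 1 / 3) (he3 : 0 ≤ e3) (he31 : e3 ≤ 1) (hI1 : 0 < I1) (hI2 : 0 < I2) (hC1 : 1 ≤ C1)
    (hvg : vg = V / G) (hMM : MMv = n2 * (V' / W' * (b / 48 * b ^ k)))
    (hq0 : 0 ≤ Q) (hq : Q ≤ (b * (I1 + ε)) ^ 4 / (b * (1 - ε)) ^ 2 * (b * (1 + ε)) *
      (b / 48 * (1 / 3 + ε)) * (b * (I2 + ε)) ^ (k - 2))
    (ht1 : |t - V'| ≤ ε * V') (hh : |ht - V| ≤ e3 * V)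
    (herr : q ≤ ε * (MMv * vg ^ 2))
    (hS : |S - n4 * (t / W' * (ht * 1 * Q) * (1 / G * 1))| ≤ q) :
    C1 * S ≤ 2 * C1 * (MMv * (vg * b) * ((1 + ε) * (1 + e3) * ((I1 + ε) ^ 4 / (1 - ε) ^ 2 *
      (1 + ε) * (1 / 3 + ε) * (I2 + ε) ^ (k - 2)) + ε)) := by
  have hb0 : 0 < b := by linarith
  have hG0 : 0 < G := by linarith
  have hvg0 : 0 < vg := by rw [hvg]; positivity
  have hvg1 : vg ≤ 1 := by
    rw [hvg, div_le_one hG0]
    linarith
  have hMM0 : 0 ≤ MMv := by rw [hMM]; positivity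
  have ht2 := (abs_le.1 ht1)
  have hh2 := (abs_le.1 hh)
  have t0 : 0 ≤ t := by nlinarith
  have ht0 : 0 ≤ ht := by nlinarith
  have tle : t ≤ (1 + ε) * V' := by linarith
  have hle : ht ≤ (1 + e3) * V := by linarith
  obtain ⟨m, rfl⟩ : ∃ m, k = m + 2 := ⟨k - 2, by omega⟩
  simp only [Nat.add_sub_cancel] at hq ⊢
  set F : ℝ := (I1 + ε) ^ 4 / (1 - ε) ^ 2 * (1 + ε) * (1 / 3 + ε) * (I2 + ε) ^ m with hF
  have hε1 : 0 < 1 - ε := by linarith
  have hF0 : 0 ≤ F := by rw [hF]; positivity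
  have hq2 : Q ≤ (b / 48 * b ^ (m + 2)) * b * F := by
    refine hq.trans (le_of_eq ?_)
    rw [hF, mul_pow, mul_pow, mul_pow]
    have hb' : b ≠ 0 := hb0.ne'
    have hε' : 1 - ε ≠ 0 := hε1.ne'
    field_simp
    ring
  have hS2 := (abs_le.1 hS).2
  have hmain : n4 * (t / W' * (ht * 1 * Q) * (1 / G * 1)) ≤
      2 * (MMv * (vg * b) * ((1 + ε) * (1 + e3) * F)) := by
    have h1 : t / W' ≤ (1 + ε) * V' / W' := div_le_div_of_nonneg_right tle hW.le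
    have h2 : ht * 1 * Q ≤ ((1 + e3) * V) * ((b / 48 * b ^ (m + 2)) * b * F) := by
      rw [mul_one]
      exact mul_le_mul hle hq2 hq0 (by positivity)
    have h3 : t / W' * (ht * 1 * Q) ≤
        (1 + ε) * V' / W' * (((1 + e3) * V) * ((b / 48 * b ^ (m + 2)) * b * F)) :=
      mul_le_mul h1 h2 (by positivity) (by positivity)
    have h4 : n4 * (t / W' * (ht * 1 * Q) * (1 / G * 1)) ≤
        n4 * ((1 + ε) * V' / W' * (((1 + e3) * V) * ((b / 48 * b ^ (m + 2)) * b * F)) *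
          (1 / G * 1)) := by
      refine mul_le_mul_of_nonneg_left (mul_le_mul_of_nonneg_right h3 (by positivity)) ?_
      rw [hn4]; positivity
    refine h4.trans (le_of_eq ?_)
    rw [hn4, hMM, hvg]
    field_simp
  have herr2 : ε * (MMv * vg ^ 2) ≤ ε * (MMv * (vg * b)) := by
    refine mul_le_mul_of_nonneg_left (mul_le_mul_of_nonneg_left ?_ hMM0) hε.le
    rw [pow_two]
    exact mul_le_mul_of_nonneg_left (by linarith) hvg0.le
  have hpos : 0 ≤ ε * (MMv * (vg * b)) := by positivity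
  have hfin : S ≤ 2 * (MMv * (vg * b) * ((1 + ε) * (1 + e3) * F + ε)) := by
    nlinarith
  have := mul_le_mul_of_nonneg_left hfin (by linarith : (0 : ℝ) ≤ C1)
  nlinarith

theorem main (hNWU : St_NWU) (hNWE : St_NWE) : St_UD := by
  intro k Q α h ε₀ ε₁ ρ ρ₁ ε M C1 A E₁ D B N v D₁ z Tr t th dl b hI1 hI2 d i j hij
  have hk := d.k3
  obtain ⟨l, hil, hjl⟩ := exists_third hk i j
  have hN : (8 : ℝ) ≤ (N : ℝ) := by exact_mod_cast d.N8
  have hl0 : 0 < Real.log N := by linarith [d.l1]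
  have hL : 0 < ρ * Real.log N := mul_pos d.ρ0 hl0
  have hPp : ∀ p ∈ PB α h N B ρ₁, p.Prime := fun p hp =>
    (d.gd p (mem_union_left _ hp)).1.1
  obtain ⟨_, hB, _, hsz, hQ⟩ := hNWU k Q (PB α h N B ρ₁) (ρ * Real.log N) i j l hij hil hjl hL hPp
  obtain ⟨_, ⟨hQ0, hQ1⟩, _⟩ := hQ (DB (2 * N) B) ε (bb N B ρ) (LZ (uB α) (wB h N)) d.sd d.ε0 d.ε3
    hI1 hI2 d.bd0 rfl d.sums
  obtain ⟨hne, _⟩ := hNWE k (uB α) (wB h N) (PB α h N B ρ₁) (fun p hp => (hPp p hp).two_le)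
  set P := PB α h N B ρ₁ with hPdef
  set PT := Pt α h N B ε₁ with hPTdef
  set zb := zB Q k P (ρ * Real.log N) i j with hzb
  set cB := cw (prP P) zb with hcB
  have hz2 : 1 ≤ z ^ 2 := Nat.one_le_pow _ _ d.z1
  have hc0 : ∀ σ, cB σ ≠ 0 → zb σ ≠ 0 := by
    intro σ hσ h0
    apply hσ
    rw [hcB]
    unfold cw
    rw [h0, mul_zero]
  -- the exponent
  have hZ : ((z ^ 2 : ℕ) : ℝ) ≤ ((4 * N : ℕ) : ℝ) ^ (1 / 2 + ε₀ / 4) := by
    have h1 := d.z2
    have h2 : (1 : ℝ) ≤ ((z ^ 2 : ℕ) : ℝ) := by exact_mod_cast hz2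
    have h3 : (1 : ℝ) < ((2 * N : ℕ) : ℝ) := by push_cast; linarith
    rcases lt_or_ge (1 / 2 + ε₀ / 4) 0 with he | he
    · have h4 := Real.rpow_lt_one_of_one_lt_of_neg h3 he
      linarith
    · refine h1.trans (Real.rpow_le_rpow (by linarith) ?_ he)
      push_cast
      linarith
  have hlog2 : 1 ≤ Real.log (2 * N : ℕ) := by
    refine d.l1.trans (Real.log_le_log (by linarith) ?_)
    push_cast
    linarith
  obtain ⟨hsum, hbd⟩ := d.mas (4 * N) (z ^ 2) cB j i th dlt b dlt (Or.inr rfl) hZ hij.symm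
    (fun σ => by
      refine cw_bd P hPp zb σ _ ?_
      exact ((hsz σ).2.1).trans d.size)
    (fun σ hσ => by
      have h1 := (hB σ (hc0 σ hσ)).1
      linarith)
    d.dth (triv_DW PT D₁ d.D1 _ hlog2)
    (Or.inr fun σ hσ => (hB σ (hc0 σ hσ)).2)
    (Or.inl fun e he => dlt_ne he)
    d.bM (triv_RCM _ _ _ hz2 M d.M1)
  -- pointwise
  have hMs : ∀ n : ℤ, Ms α h N D v D₁ (z ^ 2) P Tr cB j i th dlt b dlt n =
      ((if ((WW D / 2 : ℕ) : ℤ) ∣ n - v then 1 else 0) * Tr n) *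
        (FZ (uB α) (wB h N) P cB n ^ 2 * Pool.Agent.W23.PL.Ev th D₁ (Lf α h N (some j) n)) *
        ds b (z ^ 2) (Lf α h N (some j) n) := by
    intro n
    unfold Ms
    rw [triv_Ev D₁ d.D1, triv_ds (z ^ 2) hz2, mul_one, mul_one]
  have hWt : ∀ (X : ℕ) (n : ℤ), 0 ≤ Pool.Agent.H442R2.KF.Wt X n := fun X n =>
    (Real.exp_pos _).le
  have hind : ∀ n : ℤ, (0 : ℝ) ≤ (if ((WW D / 2 : ℕ) : ℤ) ∣ n - v then (1 : ℝ) else 0) * Tr n := by
    intro n
    refine mul_nonneg ?_ (d.Tr0 n)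
    split_ifs
    · exact zero_le_one
    · exact le_rfl
  have hxx0 : ∀ m : ℤ, 0 ≤ Pool.Agent.W23.PL.xx PT m := by
    intro m
    rcases xx_cases PT m with h1 | h1
    · rw [h1]
    · rw [h1.1]; exact zero_le_one
  have hEv0 : ∀ m : ℤ, 0 ≤ Pool.Agent.W23.PL.Ev th D₁ m := fun m =>
    (hxx0 m).trans (d.fl m).1
  have hMs0 : ∀ n : ℤ, 0 ≤ Ms α h N D v D₁ (z ^ 2) P Tr cB j i th dlt b dlt n := by
    intro n
    rw [hMs n]
    exact mul_nonneg (mul_nonneg (hind n) (mul_nonneg (sq_nonneg _) (hEv0 _))) (d.bn _)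
  have hC10 : 0 ≤ C1 := by linarith [d.C11]
  have hmu0 : ∀ n : ℤ, 0 ≤ mu Q α h ρ ρ₁ D B N v Tr i n := by
    intro n
    unfold mu
    exact mul_nonneg (hWt _ _) (mul_nonneg (hind n) (sq_nonneg _))
  have hle : ∀ n : ℤ, mu Q α h ρ ρ₁ D B N v Tr i n * sj α h ε₁ B N z b j n ^ 2 ≤
      C1 * (Pool.Agent.H442R2.KF.Wt (4 * N) n *
        Ms α h N D v D₁ (z ^ 2) P Tr cB j i th dlt b dlt n) := by
    intro n
    have hR : 0 ≤ C1 * (Pool.Agent.H442R2.KF.Wt (4 * N) n *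
        Ms α h N D v D₁ (z ^ 2) P Tr cB j i th dlt b dlt n) :=
      mul_nonneg hC10 (mul_nonneg (hWt _ _) (hMs0 n))
    rcases xx_cases PT (Lf α h N (some j) n) with h1 | ⟨h1, h2⟩
    · have h3 : sj α h ε₁ B N z b j n = 0 := by
        unfold sj
        rw [← hPTdef, h1, zero_mul]
      rw [h3]
      simpa using hR
    · have hLn : Lf α h N (some j) n ≠ 0 := by
        intro h0
        obtain ⟨p, hp⟩ := d.ne
        refine h2 p hp ?_
        rw [h0]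
        exact dvd_zero _
      have h3 : sj α h ε₁ B N z b j n = ds b (z ^ 2) (Lf α h N (some j) n) := by
        unfold sj
        rw [← hPTdef, h1, one_mul]
      have h4 : FZ (uB α) (wB h N) P cB n =
          FZ (uB α) (wB h N) P (cw (prP P) (zA Q k P (ρ * Real.log N) i)) n := by
        rw [hcB, hzb]
        unfold zB
        exact hne (some j) 0 (zA Q k P (ρ * Real.log N) i) n le_rfl
          (fun p hp => h2 p (d.sub hp))
      have h5 : 1 ≤ Pool.Agent.W23.PL.Ev th D₁ (Lf α h N (some j) n) := by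
        have := (d.fl (Lf α h N (some j) n)).1
        rw [← hPTdef, h1] at this
        exact this
      rw [h3, hMs n, h4]
      unfold mu
      rw [← hPdef]
      have h6 := d.rcb j n hLn
      have h7 := d.bn (Lf α h N (some j) n)
      have h8 := hind n
      have h9 := sq_nonneg (FZ (uB α) (wB h N) P (cw (prP P) (zA Q k P (ρ * Real.log N) i)) n)
      generalize FZ (uB α) (wB h N) P (cw (prP P) (zA Q k P (ρ * Real.log N) i)) n ^ 2 = f at h9 ⊢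
      generalize (if ((WW D / 2 : ℕ) : ℤ) ∣ n - v then (1 : ℝ) else 0) * Tr n = g at h8 ⊢
      generalize Pool.Agent.W23.PL.Ev th D₁ (Lf α h N (some j) n) = e at h5 ⊢
      generalize ds b (z ^ 2) (Lf α h N (some j) n) = s at h6 h7 ⊢
      have h10 := hWt (4 * N) n
      generalize Pool.Agent.H442R2.KF.Wt (4 * N) n = w4 at h6 h10 ⊢
      generalize Pool.Agent.H442R2.KF.Wt (2 * N) n = w2 at h6 ⊢
      have h11 : 0 ≤ g * f * s := by positivity
      calc w2 * (g * f) * s ^ 2 = (w2 * s) * (g * f * s) := by ring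
        _ ≤ (C1 * w4) * (g * f * s) := mul_le_mul_of_nonneg_right h6 h11
        _ = (C1 * w4 * (g * f * s)) * 1 := by ring
        _ ≤ (C1 * w4 * (g * f * s)) * e := mul_le_mul_of_nonneg_left h5 (by positivity)
        _ = C1 * (w4 * (g * (f * e) * s)) := by ring
  have hnn : ∀ n : ℤ, 0 ≤ mu Q α h ρ ρ₁ D B N v Tr i n * sj α h ε₁ B N z b j n ^ 2 := fun n =>
    mul_nonneg (hmu0 n) (sq_nonneg _)
  have hsC := hsum.mul_left C1
  have hsumm := Summable.of_nonneg_of_le hnn hle hsC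
  refine ⟨hsumm, ?_⟩
  have h1 := hsumm.tsum_le_tsum hle hsC
  rw [tsum_mul_left] at h1
  refine h1.trans ?_
  have hW1 : (1 : ℝ) ≤ ((WW D / 2 : ℕ) : ℝ) := by exact_mod_cast d.W2
  unfold Mm at hbd
  rw [triv_hat D₁ d.D1, triv_sum (z ^ 2) hz2, d.bs] at hbd
  refine calc1 ((2 * N : ℕ) : ℝ) (Pool.Agent.W25.UN.VV α h N D (DB (2 * N) B))
    ((WW D / 2 : ℕ) : ℝ) (bb N B ρ) (Pool.Agent.W23.PL.VV (Pt α h N B ε₁))
    (GG (Pb α h N z ε₁) z) (Q1f (prP P) cB) (((4 * N : ℕ) : ℝ) / (Real.log N) ^ A)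
    Q.I1 Q.I2 ε (ε₁ ^ 3) C1 _ (MM α h D N B ρ) (vG α h N B z ε₁) t
    (Pool.Agent.W23.PL.hat th D₁) ((4 * N : ℕ) : ℝ) k (by omega) ?_ (by positivity) (by linarith)
    d.Vp d.b1 d.V0 d.V1 d.G1 d.ε0 d.ε3 ?_ ?_ hI1 hI2 d.C11 rfl rfl hQ0 hQ1 d.t1 d.hth d.small ?_
  · push_cast
    ring
  · have := d.e10
    positivity
  · exact pow_le_one₀ d.e10.le (by linarith [d.e11])
  · exact hbd

end Pool.Agent.W804.UBUD
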