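import Pool.Agent.W804.FlowMain

set_option autoImplicit false

open MeasureTheory Metric Set Filter Topology
open scoped ContDiff ComplexOrder

namespace Pool.Agent.W804

open Pool.Agent.H805R2 Pool.Agent.Helper853.Df

variable {n : ℕ}

lemma lg_levi_nonneg (a : Cn n) {δ : ℝ} (hδ : 0 < δ) {A : ℝ} (hA : 0 ≤ A) (B : ℝ) (z ζ : Cn n) :
    0 ≤ levi (lg a δ A B) z ζ := by
  have hu : ContDiff ℝ 2 (lg a δ A B) := (lg_smooth a hδ A B).of_le ss_le
  set s := ss a δ z with hs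
  have hspos : 0 < s := ss_pos hδ z
  set v := z - a with hv
  have h1 := levi_eq_qf hu z ζ
  have h2 : (hess (lg a δ A B) z).mulVec (fun j => star (ζ j)) =
      fun j => ((A * s⁻¹ : ℝ) : ℂ) * (star (ζ j) - ((s⁻¹ : ℝ) : ℂ) * star (v j) *
        ∑ k, v k * star (ζ k)) := by
    funext j
    rw [Matrix.mulVec, dotProduct]
    simp_rw [lg_hess a hδ]
    have : ∀ k, ((A * (ss a δ z)⁻¹ : ℝ) : ℂ) *
      ((if j = k then 1 else 0) - ((ss a δ z)⁻¹ : ℝ) * (star ((z - a) j) * (z - a) k)) * star (ζ k) =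
      ((A * s⁻¹ : ℝ) : ℂ) * (if j = k then star (ζ k) else 0) -
        ((A * s⁻¹ : ℝ) : ℂ) * (((s⁻¹ : ℝ) : ℂ) * star (v j) * (v k * star (ζ k))) := by
      intro k
      split_ifs <;> ring
    rw [Finset.sum_congr rfl fun k _ => this k, Finset.sum_sub_distrib, ← Finset.mul_sum,
      ← Finset.mul_sum, ← Finset.mul_sum]
    simp only [Finset.sum_ite_eq, Finset.mem_univ, if_true]
    ring
  have h3 : (levi (lg a δ A B) z ζ : ℂ) =
      ((A * s⁻¹ * (‖ζ‖ ^ 2 - s⁻¹ * ‖inner ℂ ζ v‖ ^ 2) : ℝ) : ℂ) := by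
    have h4 : (∑ k, v k * star (ζ k)) = inner ℂ ζ v := by
      rw [PiLp.inner_apply]
      apply Finset.sum_congr rfl
      intro k _
      simp
    have h5 : (∑ j, ζ j * star (ζ j)) = ((‖ζ‖ ^ 2 : ℝ) : ℂ) := by
      rw [EuclideanSpace.norm_sq_eq]
      push_cast
      apply Finset.sum_congr rfl
      intro k _
      have := Complex.mul_conj (ζ k)
      rw [Complex.normSq_eq_norm_sq] at this
      rw [Complex.star_def, this]; push_cast; rfl
    have h6 : (∑ j, ζ j * star (v j)) = star (inner ℂ ζ v) := by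
      rw [← h4, star_sum]
      apply Finset.sum_congr rfl
      intro k _
      simp [mul_comm]
    have h7 : star (inner ℂ ζ v) * inner ℂ ζ v = ((‖inner ℂ ζ v‖ ^ 2 : ℝ) : ℂ) := by
      have := Complex.mul_conj (inner ℂ ζ v)
      rw [Complex.normSq_eq_norm_sq] at this
      rw [Complex.star_def, mul_comm, this]
    rw [h1, h2, h4, dotProduct]
    have : ∀ j, (star fun j => star (ζ j)) j * (((A * s⁻¹ : ℝ) : ℂ) * (star (ζ j) -
        ((s⁻¹ : ℝ) : ℂ) * star (v j) * inner ℂ ζ v)) = ((A * s⁻¹ : ℝ) : ℂ) * (ζ j * star (ζ j)) -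
        ((A * s⁻¹ : ℝ) : ℂ) * ((s⁻¹ : ℝ) : ℂ) * inner ℂ ζ v * (ζ j * star (v j)) := by
      intro j
      simp only [Pi.star_apply, star_star]
      ring
    rw [Finset.sum_congr rfl fun j _ => this j, Finset.sum_sub_distrib, ← Finset.mul_sum,
      ← Finset.mul_sum, h5, h6]
    push_cast
    rw [show ((‖inner ℂ ζ v‖ : ℝ) : ℂ) ^ 2 = star (inner ℂ ζ v) * inner ℂ ζ v by
      rw [h7]; push_cast; rfl]
    ring
  have h8 : levi (lg a δ A B) z ζ = A * s⁻¹ * (‖ζ‖ ^ 2 - s⁻¹ * ‖inner ℂ ζ v‖ ^ 2) := by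
    exact_mod_cast h3
  rw [h8]
  apply mul_nonneg (by positivity)
  have h9 : ‖inner ℂ ζ v‖ ≤ ‖ζ‖ * ‖v‖ := norm_inner_le_norm ζ v
  have h10 : ‖inner ℂ ζ v‖ ^ 2 ≤ ‖ζ‖ ^ 2 * s := by
    have h11 : ‖inner ℂ ζ v‖ ^ 2 ≤ (‖ζ‖ * ‖v‖) ^ 2 := by gcongr
    have h12 : (‖ζ‖ * ‖v‖) ^ 2 = ‖ζ‖ ^ 2 * ‖v‖ ^ 2 := by ring
    have h13 : ‖v‖ ^ 2 ≤ s := by rw [hs, ss]; linarith
    calc _ ≤ _ := h11
      _ = _ := h12
      _ ≤ _ := by gcongr
  have h14 : s⁻¹ * ‖inner ℂ ζ v‖ ^ 2 ≤ s⁻¹ * (‖ζ‖ ^ 2 * s) := by gcongr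
  have h15 : s⁻¹ * (‖ζ‖ ^ 2 * s) = ‖ζ‖ ^ 2 := by field_simp
  linarith

/-- the logarithmic pole -/
noncomputable def pole (a : Cn n) (c : ℝ) (z : Cn n) : EReal :=
  if z = a then ⊥ else ((c * Real.log ‖z - a‖ : ℝ) : EReal)

lemma pole_le_lg (a : Cn n) {c : ℝ} (hc : 0 < c) {δ : ℝ} (hδ : 0 < δ) (z : Cn n) :
    pole a c z ≤ ((lg a δ (c / 2) 0 z : ℝ) : EReal) := by
  unfold pole
  split_ifs with h
  · exact bot_le
  · rw [EReal.coe_le_coe_iff, lg]
    have h3 : 0 < ‖z - a‖ := norm_pos_iff.2 (sub_ne_zero.2 h)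
    have h5 : Real.log (‖z - a‖ ^ 2) ≤ Real.log (ss a δ z) := by
      apply Real.log_le_log (by positivity)
      rw [ss]; linarith
    rw [Real.log_pow] at h5
    push_cast at h5
    nlinarith

/-- pointwise, `lg` gets below anything above the pole -/
lemma exists_lg_lt (a : Cn n) {c : ℝ} (hc : 0 < c) (z : Cn n) {b : ℝ}
    (hb : pole a c z < ((b : ℝ) : EReal)) : ∃ δ > 0, lg a δ (c / 2) 0 z < b := by
  unfold pole at hb
  split_ifs at hb with h
  · subst h
    have h1 : Tendsto (fun δ : ℝ => c / 2 * Real.log δ) (𝓝[>] 0) atBot :=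
      (Real.tendsto_log_nhdsGT_zero).const_mul_atBot (by positivity)
    have h2 := (h1.eventually (eventually_lt_atBot b)).and self_mem_nhdsWithin
    obtain ⟨δ, hδ, hδ2⟩ := h2.exists
    refine ⟨δ, hδ2, ?_⟩
    rw [lg, ss]
    simpa using hδ
  · rw [EReal.coe_lt_coe_iff] at hb
    have h3 : 0 < ‖z - a‖ := norm_pos_iff.2 (sub_ne_zero.2 h)
    have h1 : Tendsto (fun δ : ℝ => c / 2 * Real.log (‖z - a‖ ^ 2 + δ) + 0) (𝓝[>] 0)
        (𝓝 (c / 2 * Real.log (‖z - a‖ ^ 2 + 0) + 0)) := by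
      apply Tendsto.mono_left _ nhdsWithin_le_nhds
      apply Tendsto.add_const
      apply Tendsto.const_mul
      apply Tendsto.log _ (by positivity)
      exact (continuous_const.add continuous_id).tendsto 0
    rw [add_zero, add_zero, Real.log_pow] at h1
    have h4 : c / 2 * (((2 : ℕ) : ℝ) * Real.log ‖z - a‖) < b := by
      push_cast; linarith
    obtain ⟨δ, hδ, hδ2⟩ := ((h1.eventually (gt_mem_nhds h4)).and self_mem_nhdsWithin).exists
    exact ⟨δ, hδ2, hδ⟩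

lemma lg_mono (a : Cn n) {c : ℝ} (hc : 0 < c) {δ δ' : ℝ} (hδ : 0 < δ) (h : δ ≤ δ') (z : Cn n) :
    lg a δ (c / 2) 0 z ≤ lg a δ' (c / 2) 0 z := by
  rw [lg, lg]
  have h1 : Real.log (ss a δ z) ≤ Real.log (ss a δ' z) := by
    apply Real.log_le_log (ss_pos hδ z)
    rw [ss, ss]; linarith
  nlinarith

/-- the logarithmic pole is plurisubharmonic -/
theorem pole_psh (a : Cn n) {c : ℝ} (hc : 0 < c) (Ω : Set (Cn n)) : PSH Ω (pole a c) := by
  refine ⟨?_, ?_, ?_⟩
  · apply UpperSemicontinuous.upperSemicontinuousOn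
    intro z y hy
    -- choose a real number between
    obtain ⟨b, hb1, hb2⟩ := EReal.lt_iff_exists_real_btwn.1 hy
    obtain ⟨δ, hδ, hlt⟩ := exists_lg_lt a hc z hb1
    have h1 := ((lg_smooth a hδ (c / 2) 0).continuous.tendsto z).eventually (gt_mem_nhds hlt)
    filter_upwards [h1] with w hw
    calc pole a c w ≤ ((lg a δ (c / 2) 0 w : ℝ) : EReal) := pole_le_lg a hc hδ w
      _ < (b : EReal) := by exact_mod_cast hw
      _ < y := hb2
  · intro z _
    unfold pole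
    split_ifs
    · exact bot_lt_top
    · exact EReal.coe_lt_top _
  · intro p b _ φ hφ hle
    -- Dini
    apply le_of_forall_gt_imp_ge_of_dense
    intro y hy
    obtain ⟨m, hm1, hm2⟩ := EReal.lt_iff_exists_real_btwn.1 hy
    rw [EReal.coe_lt_coe_iff] at hm1
    set ε := m - Real.circleAverage φ 0 1 with hε
    have hεpos : 0 < ε := by linarith
    have hK : IsCompact (sphere (0 : ℂ) 1) := isCompact_sphere 0 1
    -- for every point of the circle there is a neighbourhood and a delta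
    have h1 : ∀ ζ ∈ sphere (0 : ℂ) 1, ∃ δ > 0, ∀ᶠ w in 𝓝 ζ, lg a δ (c / 2) 0 (p + w • b) < φ w + ε := by
      intro ζ hζ
      have h2 : pole a c (p + ζ • b) < ((φ ζ + ε : ℝ) : EReal) := by
        refine lt_of_le_of_lt (hle ζ (by simpa using hζ)) ?_
        rw [EReal.coe_lt_coe_iff]
        linarith
      obtain ⟨δ, hδ, hlt⟩ := exists_lg_lt a hc _ h2
      refine ⟨δ, hδ, ?_⟩
      have hc1 : Continuous fun w : ℂ => lg a δ (c / 2) 0 (p + w • b) :=
        (lg_smooth a hδ (c / 2) 0).continuous.comp (by fun_prop)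
      exact (hc1.tendsto ζ).eventually_lt ((hφ.add continuous_const).tendsto ζ) hlt
    have h2 : ∃ δ > 0, ∀ ζ ∈ sphere (0 : ℂ) 1, lg a δ (c / 2) 0 (p + ζ • b) < φ ζ + ε := by
      refine hK.induction_on (p := fun S => ∃ δ > 0, ∀ ζ ∈ S, lg a δ (c / 2) 0 (p + ζ • b) < φ ζ + ε)
        ⟨1, one_pos, by simp⟩ ?_ ?_ ?_
      · rintro s t hst ⟨δ, hδ, h⟩
        exact ⟨δ, hδ, fun ζ hζ => h ζ (hst hζ)⟩
      · rintro s t ⟨δ, hδ, h⟩ ⟨δ', hδ', h'⟩
        refine ⟨min δ δ', lt_min hδ hδ', ?_⟩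
        rintro ζ (hζ | hζ)
        · exact (lg_mono a hc (lt_min hδ hδ') (min_le_left _ _) _).trans_lt (h ζ hζ)
        · exact (lg_mono a hc (lt_min hδ hδ') (min_le_right _ _) _).trans_lt (h' ζ hζ)
      · intro ζ hζ
        obtain ⟨δ, hδ, h⟩ := h1 ζ hζ
        exact ⟨_, mem_nhdsWithin_of_mem_nhds h, δ, hδ, fun w hw => hw⟩
    obtain ⟨δ, hδ, h3⟩ := h2
    have h4 := circle_submean ((lg_smooth a hδ (c / 2) 0).of_le ss_le) p b
      (fun ζ _ => lg_levi_nonneg a hδ (by positivity) 0 _ _)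
    have hc1 : Continuous fun w : ℂ => lg a δ (c / 2) 0 (p + w • b) :=
      (lg_smooth a hδ (c / 2) 0).continuous.comp (by fun_prop)
    have h5 : Real.circleAverage (fun ζ : ℂ => lg a δ (c / 2) 0 (p + ζ • b)) 0 1 ≤
        Real.circleAverage (fun ζ => φ ζ + ε) 0 1 := by
      apply Real.circleAverage_mono
      · exact hc1.continuousOn.circleIntegrable'
      · exact (hφ.add continuous_const).continuousOn.circleIntegrable'
      · intro ζ hζ
        exact (h3 ζ (by simpa using hζ)).le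
    have h6 : Real.circleAverage (fun ζ => φ ζ + ε) 0 1 = Real.circleAverage φ 0 1 + ε := by
      have := Real.circleAverage_add (c := 0) (R := 1) (f₁ := φ) (f₂ := fun _ => ε)
        hφ.continuousOn.circleIntegrable' continuousOn_const.circleIntegrable'
      rw [show (fun ζ => φ ζ + ε) = φ + fun _ => ε from rfl, this, Real.circleAverage_const]
    calc pole a c p ≤ ((lg a δ (c / 2) 0 p : ℝ) : EReal) := pole_le_lg a hc hδ p
      _ ≤ ((Real.circleAverage φ 0 1 + ε : ℝ) : EReal) := by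
          rw [EReal.coe_le_coe_iff]
          linarith
      _ = (m : EReal) := by rw [hε]; congr 1; ring
      _ ≤ y := hm2.le

/-- smooth boundary data -/
theorem pole_bdry (a : Cn n) {c : ℝ} {Ω : Set (Cn n)} (hΩ : IsOpen Ω) (ha : a ∈ Ω) :
    ∃ φ : Cn n → ℝ, ContDiff ℝ ∞ φ ∧ ∀ z ∉ Ω, ((φ z : ℝ) : EReal) = pole a c z := by
  obtain ⟨χ, hχ, -, hχs, hχ1, hχ2⟩ := cutoff (isCompact_singleton (x := a)) hΩ (singleton_subset_iff.2 ha)
  have hpos : ∀ z, 0 < ‖z - a‖ ^ 2 + χ z := by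
    intro z
    by_cases h : z = a
    · subst h
      rw [hχ1 z rfl]
      have := sq_nonneg ‖z - z‖
      linarith
    · have h3 : 0 < ‖z - a‖ := norm_pos_iff.2 (sub_ne_zero.2 h)
      have h4 := (hχ2 z).1
      positivity
  refine ⟨fun z => c / 2 * Real.log (‖z - a‖ ^ 2 + χ z), ?_, ?_⟩
  · apply contDiff_const.mul
    apply ContDiff.log _ fun z => (hpos z).ne'
    exact ((contDiff_id.sub contDiff_const).norm_sq ℝ).add hχ
  · intro z hz
    have h1 : χ z = 0 := by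
      by_contra h
      exact hz (hχs (subset_tsupport _ h))
    have h2 : z ≠ a := fun h => hz (h ▸ ha)
    simp only [pole, if_neg h2, h1, add_zero]
    rw [Real.log_pow]
    congr 1
    push_cast
    ring

end Pool.Agent.W804
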