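import Pool.Agent.H805R2.Lite
import Pool.Agent.H805R2.Sanity

set_option autoImplicit false

open MeasureTheory Metric Set Filter Topology
open scoped ContDiff ComplexOrder

namespace Pool.Agent.W804

open Pool.Agent.H805R2

variable {n : ℕ}

/-- the function `s = ‖z - a‖² + δ` -/
noncomputable def ss (a : Cn n) (δ : ℝ) (z : Cn n) : ℝ := ‖z - a‖ ^ 2 + δ

lemma ss_pos {a : Cn n} {δ : ℝ} (hδ : 0 < δ) (z : Cn n) : 0 < ss a δ z := by
  unfold ss; positivity

lemma ss_smooth (a : Cn n) (δ : ℝ) : ContDiff ℝ ∞ (ss a δ) := by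
  unfold ss
  exact ((contDiff_id.sub contDiff_const).norm_sq ℝ).add contDiff_const

lemma ss_hasFDeriv (a : Cn n) (δ : ℝ) (z : Cn n) :
    HasFDerivAt (ss a δ) ((2 : ℝ) • (innerSL ℝ (z - a))) z := by
  have h1 : HasFDerivAt (fun w : Cn n => w - a) (ContinuousLinearMap.id ℝ (Cn n)) z :=
    (hasFDerivAt_id z).sub_const a
  have h2 := (hasStrictFDerivAt_norm_sq (z - a)).hasFDerivAt.comp z h1
  have h3 := h2.add_const δ
  have h4 : HasFDerivAt (ss a δ) ((2 • (innerSL ℝ (z - a))).comp (ContinuousLinearMap.id ℝ (Cn n))) z := h3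
  refine h4.congr_fderiv ?_
  ext w
  simp [two_smul]

/-- the barrier `A log (‖z-a‖² + δ) + B` -/
noncomputable def lg (a : Cn n) (δ A B : ℝ) (z : Cn n) : ℝ := A * Real.log (ss a δ z) + B

lemma lg_smooth (a : Cn n) {δ : ℝ} (hδ : 0 < δ) (A B : ℝ) : ContDiff ℝ ∞ (lg a δ A B) := by
  unfold lg
  exact (contDiff_const.mul ((ss_smooth a δ).log fun z => (ss_pos hδ z).ne')).add contDiff_const

lemma lg_fderiv (a : Cn n) {δ : ℝ} (hδ : 0 < δ) (A B : ℝ) (z h : Cn n) :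
    fderiv ℝ (lg a δ A B) z h = A * ((ss a δ z)⁻¹ * (2 * inner ℝ (z - a) h)) := by
  have h1 := (((ss_hasFDeriv a δ z).log (ss_pos hδ z).ne').const_mul A).add_const B
  have h2 : HasFDerivAt (lg a δ A B) (A • (ss a δ z)⁻¹ • (2 : ℝ) • (innerSL ℝ (z - a))) z := h1
  rw [h2.fderiv]
  simp only [smul_apply, smul_eq_mul, innerSL_apply_apply]

lemma inner_bas (v : Cn n) (k : Fin n) : inner ℝ v (bas k) = (v k).re := by
  rw [bas, PiLp.inner_apply, Finset.sum_eq_single k]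
  · simp [Complex.inner]
  · intro j _ hj
    simp [hj]
  · simp

lemma inner_I_bas (v : Cn n) (k : Fin n) : inner ℝ v (Complex.I • bas k) = (v k).im := by
  rw [bas, PiLp.inner_apply, Finset.sum_eq_single k]
  · simp [Complex.inner]
  · intro j _ hj
    simp [hj]
  · simp

lemma lg_wdb (a : Cn n) {δ : ℝ} (hδ : 0 < δ) (A B : ℝ) (k : Fin n) :
    (wdb k fun w : Cn n => ((lg a δ A B w : ℝ) : ℂ)) =
      fun z => ((A * (ss a δ z)⁻¹ : ℝ) : ℂ) * (z - a) k := by
  funext z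
  have hd : DifferentiableAt ℝ (lg a δ A B) z :=
    (lg_smooth a hδ A B).contDiffAt.differentiableAt (by simp)
  rw [wdb, fderiv_ofReal z _ hd, fderiv_ofReal z _ hd, lg_fderiv a hδ, lg_fderiv a hδ,
    inner_bas, inner_I_bas]
  conv_rhs => rw [← Complex.re_add_im ((z - a) k)]
  push_cast
  ring

lemma bas_apply (j k : Fin n) : (bas j : Cn n) k = if j = k then 1 else 0 := by
  by_cases hjk : j = k
  · subst hjk
    simp [bas]
  · have hkj : k ≠ j := fun h => hjk h.symm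
    simp [bas, hjk, hkj]

lemma lg_hess (a : Cn n) {δ : ℝ} (hδ : 0 < δ) (A B : ℝ) (z : Cn n) (j k : Fin n) :
    hess (lg a δ A B) z j k = ((A * (ss a δ z)⁻¹ : ℝ) : ℂ) *
      ((if j = k then 1 else 0) - ((ss a δ z)⁻¹ : ℝ) * (star ((z - a) j) * (z - a) k)) := by
  rw [hess, Matrix.of_apply, lg_wdb a hδ]
  have hs := (ss_pos (a := a) hδ z).ne'
  have h1 : HasFDerivAt (fun z : Cn n => (z - a) k)
      ((EuclideanSpace.proj k : Cn n →L[ℂ] ℂ).restrictScalars ℝ) z := by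
    have := ((EuclideanSpace.proj k : Cn n →L[ℂ] ℂ).restrictScalars ℝ).hasFDerivAt (x := z - a)
    exact this.comp z ((hasFDerivAt_id z).sub_const a)
  have h2 : HasFDerivAt (fun z : Cn n => (A * (ss a δ z)⁻¹ : ℝ))
      (A • -((ss a δ z ^ 2)⁻¹ • ((2 : ℝ) • (innerSL ℝ (z - a))))) z := by
    have h3 := (hasDerivAt_inv hs).comp_hasFDerivAt z (ss_hasFDeriv a δ z)
    have h4 := h3.const_mul A
    refine h4.congr_fderiv ?_
    ext w
    simp
  have h3 : HasFDerivAt (fun z : Cn n => (((A * (ss a δ z)⁻¹ : ℝ)) : ℂ))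
      (Complex.ofRealCLM.comp (A • -((ss a δ z ^ 2)⁻¹ • ((2 : ℝ) • (innerSL ℝ (z - a)))))) z :=
    Complex.ofRealCLM.hasFDerivAt.comp z h2
  have h4 := h3.mul h1
  have h5 : ∀ h : Cn n, fderiv ℝ (fun z : Cn n => (((A * (ss a δ z)⁻¹ : ℝ)) : ℂ) * (z - a) k) z h =
      ((A * (ss a δ z)⁻¹ : ℝ) : ℂ) * h k - ((A * (ss a δ z ^ 2)⁻¹ * (2 * inner ℝ (z - a) h) : ℝ) : ℂ) *
        (z - a) k := by
    intro h
    refine (congrArg (fun L : Cn n →L[ℝ] ℂ => L h) h4.fderiv).trans ?_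
    simp [smul_apply, inner_sub_left]
    ring
  rw [wd, h5, h5, inner_bas, inner_I_bas, bas_apply]
  have h6 : (Complex.I • (bas j : Cn n)) k = Complex.I * (if j = k then 1 else 0) := by
    rw [PiLp.smul_apply, bas_apply, smul_eq_mul]
  rw [h6]
  have h7 : star ((z - a) j) = (((z - a) j).re : ℂ) - (((z - a) j).im : ℂ) * Complex.I := by
    apply Complex.ext
    · simp
    · simp only [Complex.star_def, Complex.conj_im, Complex.sub_im, Complex.ofReal_im,
        Complex.mul_im, Complex.ofReal_re, Complex.I_im, Complex.I_re]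
      ring
  rw [h7]
  have hs' : ((ss a δ z : ℝ) : ℂ) ≠ 0 := by exact_mod_cast hs
  push_cast
  have hI : Complex.I * Complex.I = -1 := Complex.I_mul_I
  field_simp
  ring_nf
  simp only [Complex.I_sq]
  ring

lemma lg_det (a : Cn n) {δ : ℝ} (hδ : 0 < δ) (A B : ℝ) (z : Cn n) :
    (hess (lg a δ A B) z).det = (((A * (ss a δ z)⁻¹) ^ n * (δ * (ss a δ z)⁻¹) : ℝ) : ℂ) := by
  set s := ss a δ z with hs
  have hspos : 0 < s := ss_pos hδ z
  have h1 : hess (lg a δ A B) z = ((A * s⁻¹ : ℝ) : ℂ) •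
      (1 + Matrix.replicateCol Unit (fun j => -((s⁻¹ : ℝ) : ℂ) * star ((z - a) j)) *
        Matrix.replicateRow Unit (fun k => (z - a) k)) := by
    ext j k
    rw [lg_hess a hδ, Matrix.smul_apply, Matrix.add_apply, Matrix.mul_apply, Matrix.one_apply]
    simp only [Finset.univ_unique, Finset.sum_singleton, Matrix.replicateCol_apply,
      Matrix.replicateRow_apply, smul_eq_mul]
    ring
  rw [h1, Matrix.det_smul, Matrix.det_one_add_replicateCol_mul_replicateRow, Fintype.card_fin]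
  have h2 : ((fun k => (z - a) k) ⬝ᵥ fun j => -((s⁻¹ : ℝ) : ℂ) * star ((z - a) j)) =
      ((-(s⁻¹ * ‖z - a‖ ^ 2) : ℝ) : ℂ) := by
    rw [EuclideanSpace.norm_sq_eq]
    simp only [dotProduct]
    push_cast
    rw [Finset.mul_sum, ← Finset.sum_neg_distrib]
    apply Finset.sum_congr rfl
    intro j _
    have := Complex.mul_conj ((z - a) j)
    rw [Complex.normSq_eq_norm_sq] at this
    have h3 : (z - a) j * star ((z - a) j) = ((‖(z - a) j‖ : ℝ) : ℂ) ^ 2 := by
      rw [Complex.star_def, this]; push_cast; rfl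
    linear_combination (-((s : ℝ) : ℂ)⁻¹) * h3
  rw [h2]
  have h3 : ‖z - a‖ ^ 2 = s - δ := by rw [hs, ss]; ring
  rw [h3]
  have h4 : 1 + -(s⁻¹ * (s - δ)) = δ * s⁻¹ := by field_simp; ring
  rw [show (1 : ℂ) + ((-(s⁻¹ * (s - δ)) : ℝ) : ℂ) = ((1 + -(s⁻¹ * (s - δ)) : ℝ) : ℂ) by push_cast; ring, h4]
  push_cast
  ring

end Pool.Agent.W804
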