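import Pool.Agent.W804.Sub
import Pool.Agent.W804.Barrier
import Pool.Agent.H805R2.Mat

set_option autoImplicit false

open MeasureTheory Metric Set Filter Topology
open scoped ContDiff ComplexOrder

namespace Pool.Agent.W804

open Pool.Agent.H805R2 Pool.Agent.Helper853.Df

variable {n : ℕ}

/-- at a local maximum of `f - g` the Levi form of `f` is at most that of `g` -/
theorem levi_le_of_isLocalMax {f g : Cn n → ℝ} (hf : ContDiff ℝ 2 f) (hg : ContDiff ℝ 2 g) {z : Cn n}
    (hmax : IsLocalMax (fun w => f w - g w) z) (b : Cn n) : levi f z b ≤ levi g z b := by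
  have hγd : ∀ y : ℂ, HasDerivAt (fun ζ : ℂ => z + ζ • b) b y := by
    intro y
    have := ((hasDerivAt_id y).smul_const b).const_add z
    simpa using this
  have hγ1 : deriv (fun ζ : ℂ => z + ζ • b) = fun _ => b := funext fun y => (hγd y).deriv
  have hγ : ∀ᶠ w in 𝓝 (0 : ℂ), DifferentiableAt ℂ (fun ζ : ℂ => z + ζ • b) w :=
    Eventually.of_forall fun w => (hγd w).differentiableAt
  have hz : z + (0 : ℂ) • b = z := by simp
  have hloc : IsLocalMax (fun ζ : ℂ => f (z + ζ • b) + -(g (z + ζ • b))) 0 := by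
    have hc : Tendsto (fun ζ : ℂ => z + ζ • b) (𝓝 0) (𝓝 z) := by
      have : Continuous fun ζ : ℂ => z + ζ • b := by fun_prop
      have := this.tendsto 0
      simpa using this
    have := hc.eventually hmax
    filter_upwards [this] with ζ hζ
    rw [hz]
    linarith
  have k1 := ((SD_comp (γ := fun ζ : ℂ => z + ζ • b) (ζ := 0) hf.contDiffAt hγ 1).add
    (SD_comp (γ := fun ζ : ℂ => z + ζ • b) (ζ := 0) hg.contDiffAt hγ 1).neg).nonpos_of_isLocalMax hloc
  have k2 := ((SD_comp (γ := fun ζ : ℂ => z + ζ • b) (ζ := 0) hf.contDiffAt hγ Complex.I).add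
    (SD_comp (γ := fun ζ : ℂ => z + ζ • b) (ζ := 0) hg.contDiffAt hγ Complex.I).neg).nonpos_of_isLocalMax hloc
  rw [hγ1] at k1 k2
  have hd2 : deriv (fun _ : ℂ => b) 0 = 0 := by simp
  rw [hd2] at k1 k2
  simp only [one_smul, one_pow, Complex.I_sq, smul_zero, map_zero, zero_smul, add_zero] at k1 k2
  unfold levi D2
  linarith

lemma qf_levi' {u : Cn n → ℝ} (hu : ContDiff ℝ 2 u) (z : Cn n) (c : Fin n → ℂ) :
    star c ⬝ᵥ (hess u z).mulVec c = ((levi u z (WithLp.toLp 2 fun j => star (c j)) : ℝ) : ℂ) := by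
  rw [levi_eq_qf hu]
  simp only [star_star]

lemma levi_pos_of_posDef {u : Cn n → ℝ} (hu : ContDiff ℝ 2 u) {z : Cn n} (h : (hess u z).PosDef)
    {b : Cn n} (hb : b ≠ 0) : 0 < levi u z b := by
  have h1 : (fun j => star (b j)) ≠ (0 : Fin n → ℂ) := by
    intro h0
    apply hb
    ext j
    have := congrFun h0 j
    simpa using this
  have h2 := h.dotProduct_mulVec_pos h1
  rw [← levi_eq_qf hu] at h2
  exact_mod_cast h2

lemma levi_zero (u : Cn n → ℝ) (z : Cn n) : levi u z 0 = 0 := by
  unfold levi D2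
  simp

/-- comparison of Monge-Ampere densities at a local maximum of `f - g` -/
theorem det_le_of_isLocalMax {f g : Cn n → ℝ} (hf : ContDiff ℝ 2 f) (hg : ContDiff ℝ 2 g) {z : Cn n}
    (hfp : (hess f z).PosDef) (hmax : IsLocalMax (fun w => f w - g w) z) :
    (hess f z).det.re ≤ (hess g z).det.re := by
  have hle := levi_le_of_isLocalMax hf hg hmax
  have hgp : (hess g z).PosDef := by
    refine Matrix.PosDef.of_dotProduct_mulVec_pos (hess_isHermitian hg z) ?_
    intro c hc
    rw [qf_levi' hg]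
    have hb : (WithLp.toLp 2 fun j => star (c j) : Cn n) ≠ 0 := by
      intro h0
      apply hc
      funext j
      have := congrArg (fun v : Cn n => v j) h0
      simpa using this
    have := lt_of_lt_of_le (levi_pos_of_posDef hf hfp hb) (hle _)
    exact_mod_cast this
  apply Gram.det_mono _ _ hgp hfp.posSemidef
  intro c
  have h1 := qf_levi' hf z c
  have h2 := qf_levi' hg z c
  rw [Gram.qf, Gram.qf, h1, h2, Complex.ofReal_re, Complex.ofReal_re]
  exact hle _

end Pool.Agent.W804
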