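import Pool.Agent.W804.Hartogs
import Pool.Agent.W804.Cmp

set_option autoImplicit false

open MeasureTheory Metric Set Filter Topology
open scoped ContDiff ComplexOrder

namespace Pool.Agent.W804

open Pool.Agent.H805R2 Pool.Agent.Helper853.Df

variable {n : ℕ}

/-- maximum principle for strictly plurisubharmonic functions -/
theorem le_of_boundary {Ω : Set (Cn n)} (hn : 1 ≤ n) (hΩ : IsOpen Ω) (hb : Bornology.IsBounded Ω)
    {f : Cn n → ℝ} (hc : ContinuousOn f (closure Ω)) (hf : ContDiffOn ℝ ∞ f Ω)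
    (hpd : ∀ z ∈ Ω, (hess f z).PosDef) {M : ℝ} (hM : ∀ z ∈ frontier Ω, f z ≤ M) :
    ∀ z ∈ closure Ω, f z ≤ M := by
  intro z hz
  have hK : IsCompact (closure Ω) := hb.isCompact_closure
  obtain ⟨z1, hz1, hmax⟩ := hK.exists_isMaxOn ⟨z, hz⟩ hc
  refine (hmax hz).trans ?_
  by_cases hfr : z1 ∈ frontier Ω
  · exact hM z1 hfr
  · exfalso
    have hz1Ω : z1 ∈ Ω := by
      by_contra h
      exact hfr ⟨hz1, fun h' => h (interior_subset h')⟩
    -- a cutoff equal to one near z1
    obtain ⟨e, he, heΩ⟩ := Metric.isOpen_iff.1 hΩ z1 hz1Ω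
    obtain ⟨χ, hχ, -, hχs, hχ1, -⟩ := cutoff (isCompact_closedBall z1 (e / 2)) hΩ
      ((closedBall_subset_ball (by linarith)).trans heΩ)
    have hF : ContDiff ℝ ∞ fun w => χ w * f w := cutoff_mul_smooth hΩ hχ hf hχs
    have hev : (fun w => χ w * f w) =ᶠ[𝓝 z1] f := by
      filter_upwards [ball_mem_nhds z1 (show 0 < e / 2 by linarith)] with w hw
      rw [hχ1 w (ball_subset_closedBall hw), one_mul]
    have hp : (hess (fun w => χ w * f w) z1).PosDef := by
      rw [hess_congr hev]; exact hpd z1 hz1Ω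
    have hloc : IsLocalMax (fun w => χ w * f w - (fun _ => (0 : ℝ)) w) z1 := by
      have h1 : IsLocalMax f z1 := hmax.isLocalMax (mem_of_superset (hΩ.mem_nhds hz1Ω) subset_closure)
      have h2 : IsLocalMax (fun w => χ w * f w) z1 := by
        have := h1
        unfold IsLocalMax IsMaxFilter at this ⊢
        have e1 := hev.eq_of_nhds
        filter_upwards [this, hev] with w hw hw2
        calc χ w * f w = f w := hw2
          _ ≤ f z1 := hw
          _ = χ z1 * f z1 := e1.symm
      simpa using h2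
    have h2 := levi_le_of_isLocalMax (hF.of_le ss_le) (contDiff_const (c := (0 : ℝ))) hloc (bas ⟨0, hn⟩)
    have h3 : (bas ⟨0, hn⟩ : Cn n) ≠ 0 := by
      intro h0
      have := congrArg (fun v : Cn n => v ⟨0, hn⟩) h0
      simp [bas] at this
    have h4 := levi_pos_of_posDef (hF.of_le ss_le) hp h3
    rw [levi_const] at h2
    linarith

/-- parabolic comparison with the logarithmic barrier -/
theorem parabolic {a : Cn n} {R r t1 t2 : ℝ} (hRr : R < r) (ht : t1 ≤ t2)
    {u : Cn n → ℝ → ℝ}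
    (hcont : ContinuousOn (fun p : Cn n × ℝ => u p.1 p.2) (closedBall a R ×ˢ Icc t1 t2))
    (hdiff : ∀ z ∈ ball a r, ∀ t ∈ Icc t1 t2, DifferentiableAt ℝ (fun s => u z s) t)
    (F : ℝ → Cn n → ℝ) (hF : ∀ t ∈ Icc t1 t2, ContDiff ℝ ∞ (F t))
    (hFu : ∀ t ∈ Icc t1 t2, ∀ z ∈ ball a r, F t z = u z t)
    (hpd : ∀ t ∈ Icc t1 t2, ∀ z ∈ ball a r, (hess (F t) z).PosDef)
    (hflow : ∀ t ∈ Icc t1 t2, ∀ z ∈ ball a r,
      deriv (fun s => u z s) t = Real.log (hess (F t) z).det.re)
    {δ c B C : ℝ} (hδ : 0 < δ) (hc : 0 < c) (htc : n * (t2 - t1) ≤ c / 4)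
    (hB : n * |Real.log (c / 2)| < B)
    (hinit : ∀ z ∈ closedBall a R, u z t1 ≤ lg a δ (c / 2) C z)
    (hbd : ∀ z ∈ sphere a R, ∀ t ∈ Icc t1 t2,
      u z t ≤ lg a δ (c / 2 - n * (t - t1)) (B * (t - t1) + C) z) :
    ∀ z ∈ closedBall a R, ∀ t ∈ Icc t1 t2,
      u z t ≤ lg a δ (c / 2 - n * (t - t1)) (B * (t - t1) + C) z := by
  set V : Cn n → ℝ → ℝ := fun z t => lg a δ (c / 2 - n * (t - t1)) (B * (t - t1) + C) z with hV
  have hVcont : Continuous (fun p : Cn n × ℝ => V p.1 p.2) := by
    simp only [hV, lg]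
    apply Continuous.add
    · apply Continuous.mul (by fun_prop)
      apply Continuous.log
      · exact (ss_smooth a δ).continuous.comp continuous_fst
      · intro p; exact (ss_pos hδ _).ne'
    · fun_prop
  by_contra hcon
  push Not at hcon
  obtain ⟨z', hz', t', ht', hlt⟩ := hcon
  have hKc : IsCompact (closedBall a R ×ˢ Icc t1 t2) := (isCompact_closedBall a R).prod isCompact_Icc
  obtain ⟨⟨z0, t0⟩, hp, hmax⟩ := hKc.exists_isMaxOn ⟨(z', t'), ⟨hz', ht'⟩⟩
    (hcont.sub hVcont.continuousOn)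
  obtain ⟨hz0, ht0⟩ := hp
  have hWpos : 0 < u z0 t0 - V z0 t0 := by
    have h1 := hmax (show (z', t') ∈ closedBall a R ×ˢ Icc t1 t2 from ⟨hz', ht'⟩)
    simp only [Pi.sub_apply, mem_ofPred_eq] at h1
    have h2 : V z' t' < u z' t' := hlt
    linarith
  have ht0ne : t0 ≠ t1 := by
    rintro rfl
    have h1 := hinit z0 hz0
    have h2 : V z0 t0 = lg a δ (c / 2) C z0 := by
      simp only [hV]; congr 1 <;> ring
    rw [h2] at hWpos
    linarith
  have hz0b : z0 ∈ ball a R := by
    have h1 : dist z0 a ≤ R := hz0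
    rcases h1.lt_or_eq with h | h
    · exact h
    · exfalso
      have := hbd z0 h t0 ht0
      have h2 : V z0 t0 = lg a δ (c / 2 - n * (t0 - t1)) (B * (t0 - t1) + C) z0 := rfl
      rw [h2] at hWpos
      linarith
  have hz0r : z0 ∈ ball a r := ball_subset_ball hRr.le hz0b
  have ht0lt : t1 < t0 := lt_of_le_of_ne ht0.1 (Ne.symm ht0ne)
  -- time derivative
  have hVd : HasDerivAt (fun s => V z0 s) (-n * Real.log (ss a δ z0) + B) t0 := by
    have h1 : HasDerivAt (fun s : ℝ => c / 2 - n * (s - t1)) (-n) t0 := by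
      have := (((hasDerivAt_id t0).sub_const t1).const_mul (n : ℝ)).const_sub (c / 2)
      simpa using this
    have h2 : HasDerivAt (fun s : ℝ => B * (s - t1) + C) B t0 := by
      have := (((hasDerivAt_id t0).sub_const t1).const_mul B).add_const C
      simpa using this
    exact (h1.mul_const _).add h2
  have hWd : HasDerivAt (fun s => u z0 s - V z0 s)
      (deriv (fun s => u z0 s) t0 - (-n * Real.log (ss a δ z0) + B)) t0 :=
    (hdiff z0 hz0r t0 ht0).hasDerivAt.sub hVd
  have hder : 0 ≤ deriv (fun s => u z0 s) t0 - (-n * Real.log (ss a δ z0) + B) := by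
    have hs := hWd.tendsto_slope_zero_left
    apply ge_of_tendsto hs
    have h1 : Ioo (t1 - t0) 0 ∈ 𝓝[<] (0 : ℝ) := Ioo_mem_nhdsLT (by linarith)
    filter_upwards [h1] with h hh
    have h2 := hmax (show (z0, t0 + h) ∈ closedBall a R ×ˢ Icc t1 t2 from
      ⟨hz0, by linarith [hh.1], by linarith [hh.2, ht0.2]⟩)
    simp only [Pi.sub_apply, mem_ofPred_eq] at h2
    rw [smul_eq_mul]
    apply mul_nonneg_of_nonpos_of_nonpos
    · exact inv_nonpos.2 hh.2.le
    · linarith
  -- space
  have hloc : IsLocalMax (fun w => F t0 w - V w t0) z0 := by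
    filter_upwards [isOpen_ball.mem_nhds hz0b] with w hw
    have h2 := hmax (show (w, t0) ∈ closedBall a R ×ˢ Icc t1 t2 from ⟨ball_subset_closedBall hw, ht0⟩)
    simp only [Pi.sub_apply, mem_ofPred_eq] at h2
    rw [hFu t0 ht0 w (ball_subset_ball hRr.le hw), hFu t0 ht0 z0 hz0r]
    exact h2
  have hdet := det_le_of_isLocalMax ((hF t0 ht0).of_le ss_le)
    ((lg_smooth a hδ (c / 2 - n * (t0 - t1)) (B * (t0 - t1) + C)).of_le ss_le) (hpd t0 ht0 z0 hz0r) hloc
  rw [lg_det a hδ, Complex.ofReal_re] at hdet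
  have hdpos : 0 < (hess (F t0) z0).det.re := (Complex.pos_iff.1 (hpd t0 ht0 z0 hz0r).det_pos).1
  have hlog := Real.log_le_log hdpos hdet
  rw [← hflow t0 ht0 z0 hz0r] at hlog
  set s := ss a δ z0 with hs
  have hspos : 0 < s := ss_pos hδ z0
  set A := c / 2 - n * (t0 - t1) with hA
  have hnn : (0 : ℝ) ≤ n := Nat.cast_nonneg n
  have hAlow : c / 4 ≤ A := by
    have : (n : ℝ) * (t0 - t1) ≤ n * (t2 - t1) := by
      apply mul_le_mul_of_nonneg_left _ hnn
      linarith [ht0.2]
    linarith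
  have hAup : A ≤ c / 2 := by
    have : 0 ≤ (n : ℝ) * (t0 - t1) := mul_nonneg hnn (by linarith)
    linarith
  have hApos : 0 < A := by linarith
  have hlog2 : Real.log ((A * s⁻¹) ^ n * (δ * s⁻¹)) =
      n * Real.log A - n * Real.log s + Real.log δ - Real.log s := by
    rw [Real.log_mul (by positivity) (by positivity), Real.log_pow,
      Real.log_mul (by positivity) (by positivity), Real.log_mul (by positivity) (by positivity),
      Real.log_inv]
    ring
  rw [hlog2] at hlog
  have hlogA : Real.log A ≤ |Real.log (c / 2)| :=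
    (Real.log_le_log hApos hAup).trans (le_abs_self _)
  have hlogs : Real.log δ ≤ Real.log s := by
    apply Real.log_le_log hδ
    rw [hs, ss]
    have := sq_nonneg ‖z0 - a‖
    linarith
  have h5 : (n : ℝ) * Real.log A ≤ n * |Real.log (c / 2)| := mul_le_mul_of_nonneg_left hlogA hnn
  linarith

/-- no solution of the flow with an initial datum having a logarithmic pole -/
theorem no_solution (hn : 1 ≤ n) {Ω : Set (Cn n)} (hΩ : IsOpen Ω) (hb : Bornology.IsBounded Ω)
    {T : ℝ} (hT : 0 < T) {u0 : Cn n → EReal} {φ u : Cn n → ℝ → ℝ} {a : Cn n} (ha : a ∈ Ω)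
    {c C : ℝ} (hc : 0 < c)
    (hpole : ∀ᶠ z in 𝓝[≠] a, u0 z ≤ ((c * Real.log ‖z - a‖ + C : ℝ) : EReal))
    (hφ : ContinuousOn (fun p : Cn n × ℝ => φ p.1 p.2) (closure Ω ×ˢ Ico 0 T))
    (hsm : ContDiffOn ℝ ∞ (fun p : Cn n × ℝ => u p.1 p.2) (closure Ω ×ˢ Ioo 0 T))
    (hpd : ∀ t ∈ Ioo 0 T, ∀ z ∈ Ω, (hess (fun w => u w t) z).PosDef)
    (hflow : ∀ t ∈ Ioo 0 T, ∀ z ∈ Ω,
      deriv (fun s => u z s) t = Real.log (hess (fun w => u w t) z).det.re)
    (hbd : ∀ t ∈ Ioo 0 T, ∀ z ∈ frontier Ω, u z t = φ z t)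
    (hinit : ∀ z ∈ closure Ω, Tendsto (fun t => ((u z t : ℝ) : EReal)) (𝓝[>] 0) (𝓝 (u0 z))) :
    False := by
  -- radii
  obtain ⟨r, hr, hrΩ, hrp⟩ : ∃ r > 0, closedBall a r ⊆ Ω ∧
      ∀ z ∈ ball a r, z ≠ a → u0 z ≤ ((c * Real.log ‖z - a‖ + C : ℝ) : EReal) := by
    obtain ⟨e1, he1, h1⟩ := Metric.isOpen_iff.1 hΩ a ha
    rw [eventually_nhdsWithin_iff, Metric.eventually_nhds_iff_ball] at hpole
    obtain ⟨e2, he2, h2⟩ := hpole
    refine ⟨min e1 e2 / 2, by positivity, ?_, ?_⟩
    · intro z hz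
      apply h1
      rw [mem_closedBall] at hz
      rw [mem_ball]
      have := min_le_left e1 e2
      have := lt_min he1 he2
      linarith
    · intro z hz hza
      apply h2 z _ hza
      rw [mem_ball] at hz ⊢
      have := min_le_right e1 e2
      have := lt_min he1 he2
      linarith
  set R := r / 2 with hR
  have hRpos : 0 < R := by positivity
  have hRr : R < r := by linarith
  obtain ⟨χ, hχ, -, hχs, hχ1, -⟩ := cutoff (isCompact_closedBall a r) hΩ hrΩ
  set F : ℝ → Cn n → ℝ := fun t z => χ z * u z t with hFdef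
  have hslice : ∀ t ∈ Ioo 0 T, ContDiffOn ℝ ∞ (fun w => u w t) Ω := by
    intro t ht
    have h1 : ContDiffOn ℝ ∞ (fun w : Cn n => (w, t)) Ω := by fun_prop
    exact hsm.comp h1 (fun w hw => ⟨subset_closure hw, ht⟩)
  have hslicec : ∀ t ∈ Ioo 0 T, ContinuousOn (fun w => u w t) (closure Ω) := by
    intro t ht
    have h1 : ContinuousOn (fun w : Cn n => (w, t)) (closure Ω) := by fun_prop
    exact hsm.continuousOn.comp h1 (fun w hw => ⟨hw, ht⟩)
  have hF : ∀ t ∈ Ioo 0 T, ContDiff ℝ ∞ (F t) := fun t ht =>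
    cutoff_mul_smooth hΩ hχ (hslice t ht) hχs
  have hFu : ∀ t z, z ∈ ball a r → F t z = u z t := by
    intro t z hz
    simp only [hFdef]
    rw [hχ1 z (ball_subset_closedBall hz), one_mul]
  have hFev : ∀ t z, z ∈ ball a r → F t =ᶠ[𝓝 z] fun w => u w t := by
    intro t z hz
    filter_upwards [isOpen_ball.mem_nhds hz] with w hw
    exact hFu t w hw
  have hballΩ : ball a r ⊆ Ω := ball_subset_closedBall.trans hrΩ
  have hFpd : ∀ t ∈ Ioo 0 T, ∀ z ∈ ball a r, (hess (F t) z).PosDef := by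
    intro t ht z hz
    rw [hess_congr (hFev t z hz)]
    exact hpd t ht z (hballΩ hz)
  have hFlevi : ∀ t ∈ Ioo 0 T, ∀ z ∈ ball a r, ∀ b, 0 ≤ levi (F t) z b := by
    intro t ht z hz b
    by_cases hb0 : b = 0
    · rw [hb0, levi_zero]
    · exact (levi_pos_of_posDef ((hF t ht).of_le ss_le) (hFpd t ht z hz) hb0).le
  -- upper bound
  obtain ⟨M, hM⟩ : ∃ M : ℝ, ∀ t ∈ Ioc 0 (T / 2), ∀ z ∈ closure Ω, u z t ≤ M := by
    have hK : IsCompact (closure Ω ×ˢ Icc 0 (T / 2)) := hb.isCompact_closure.prod isCompact_Icc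
    have hφK : ContinuousOn (fun p : Cn n × ℝ => φ p.1 p.2) (closure Ω ×ˢ Icc 0 (T / 2)) := by
      apply hφ.mono
      rintro ⟨z, t⟩ ⟨h1, h2⟩
      exact ⟨h1, h2.1, by linarith [h2.2]⟩
    obtain ⟨M, hM⟩ := (hK.image_of_continuousOn hφK).bddAbove
    refine ⟨M, fun t ht => ?_⟩
    have htT : t ∈ Ioo 0 T := ⟨ht.1, by linarith [ht.2]⟩
    apply le_of_boundary hn hΩ hb (hslicec t htT) (hslice t htT) (hpd t htT)
    intro z hz
    rw [hbd t htT z hz]
    exact hM ⟨(z, t), ⟨hz.1, ht.1.le, ht.2⟩, rfl⟩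
  -- constants
  set B : ℝ := n * |Real.log (c / 2)| + 1 with hB
  have hBpos : 0 < B := by positivity
  set C0 : ℝ := max (C + 1) (M + c / 2 * |Real.log (R ^ 2)|) with hC0
  have hC01 : C + 1 ≤ C0 := le_max_left _ _
  have hC02 : M + c / 2 * |Real.log (R ^ 2)| ≤ C0 := le_max_right _ _
  have hnpos : (0 : ℝ) < n := by exact_mod_cast hn
  set ts : ℝ := min (T / 2) (c / (4 * n)) with hts
  have htspos : 0 < ts := by positivity
  have htsT : ts ≤ T / 2 := min_le_left _ _
  have htsc : n * ts ≤ c / 4 := by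
    have h1 : ts ≤ c / (4 * n) := min_le_right _ _
    have h2 : (n : ℝ) * ts ≤ n * (c / (4 * n)) := mul_le_mul_of_nonneg_left h1 hnpos.le
    have h3 : (n : ℝ) * (c / (4 * n)) = c / 4 := by field_simp
    linarith
  -- main estimate
  have main : ∀ δ : ℝ, 0 < δ → δ < 1 → u a ts ≤ c / 4 * Real.log δ + (B * ts + C0) := by
    intro δ hδ hδ1
    set tk : ℕ → ℝ := fun k => ts / (k + 1) with htk
    have htkpos : ∀ k, 0 < tk k := fun k => by simp only [htk]; positivity
    have htkle : ∀ k, tk k ≤ ts := by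
      intro k
      simp only [htk]
      apply div_le_self htspos.le
      have : (0 : ℝ) ≤ k := Nat.cast_nonneg k
      linarith
    have htkT : ∀ k, tk k ∈ Ioo 0 T := fun k => ⟨htkpos k, by linarith [htkle k]⟩
    have htk0 : Tendsto tk atTop (𝓝[>] 0) := by
      rw [tendsto_nhdsWithin_iff]
      refine ⟨?_, Eventually.of_forall fun k => htkpos k⟩
      have := (tendsto_one_div_add_atTop_nhds_zero_nat (𝕜 := ℝ)).const_mul ts
      simpa [htk, div_eq_mul_inv] using this
    have hhart := hartogs hn hRr (M := M) (fun k => F (tk k)) (fun k => (hF _ (htkT k)).of_le ss_le)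
      (fun k => hFlevi _ (htkT k))
      (fun k z hz => by
        change F (tk k) z ≤ M
        rw [hFu _ z hz]
        exact hM _ ⟨htkpos k, by linarith [htkle k]⟩ z (subset_closure (hballΩ hz)))
      (lg a δ (c / 2) C) (lg_smooth a hδ _ _).continuous
      (fun z hz hza ε hε => by
        have h1 := (hinit z (subset_closure (hballΩ hz))).comp htk0
        have h2 : u0 z < ((lg a δ (c / 2) C z + ε : ℝ) : EReal) := by
          refine lt_of_le_of_lt (hrp z hz hza) ?_
          rw [EReal.coe_lt_coe_iff]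
          have h3 : 0 < ‖z - a‖ := norm_pos_iff.2 (sub_ne_zero.2 hza)
          have h4 : c * Real.log ‖z - a‖ ≤ c / 2 * Real.log (ss a δ z) := by
            have h5 : Real.log (‖z - a‖ ^ 2) ≤ Real.log (ss a δ z) := by
              apply Real.log_le_log (by positivity)
              rw [ss]; linarith
            rw [Real.log_pow] at h5
            push_cast at h5
            nlinarith
          rw [lg]
          linarith
        filter_upwards [h1.eventually (gt_mem_nhds h2)] with k hk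
        have h3 : ((u z (tk k) : ℝ) : EReal) < ((lg a δ (c / 2) C z + ε : ℝ) : EReal) := hk
        rw [EReal.coe_lt_coe_iff] at h3
        change F (tk k) z ≤ _
        rw [hFu _ z hz]
        exact h3.le)
      (ε := 1) one_pos
    obtain ⟨k, hk⟩ := hhart.exists
    set t1 := tk k with ht1
    have ht1pos : 0 < t1 := htkpos k
    have ht1le : t1 ≤ ts := htkle k
    have hsub : ∀ t ∈ Icc t1 ts, t ∈ Ioo 0 T := fun t ht =>
      ⟨by linarith [ht.1], by linarith [ht.2]⟩
    have hRball : closedBall a R ⊆ ball a r := closedBall_subset_ball hRr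
    have hpar := parabolic (u := u) hRr ht1le
      (hsm.continuousOn.mono (by
        rintro ⟨z, t⟩ ⟨h1, h2⟩
        exact ⟨subset_closure (hballΩ (hRball h1)), hsub t h2⟩))
      (by
        intro z hz t ht
        have h1 : closure Ω ×ˢ Ioo 0 T ∈ 𝓝 (z, t) := by
          apply prod_mem_nhds
          · exact mem_of_superset (hΩ.mem_nhds (hballΩ hz)) subset_closure
          · exact isOpen_Ioo.mem_nhds (hsub t ht)
        have h2 := (hsm.contDiffAt h1).differentiableAt (by simp)
        have h3 : DifferentiableAt ℝ (fun s : ℝ => (z, s)) t := by fun_prop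
        exact h2.comp t h3)
      F (fun t ht => hF t (hsub t ht)) (fun t _ z hz => hFu t z hz)
      (fun t ht => hFpd t (hsub t ht))
      (fun t ht z hz => by
        rw [hess_congr (hFev t z hz)]
        exact hflow t (hsub t ht) z (hballΩ hz))
      hδ hc (B := B) (C := C0)
      (by
        have : (n : ℝ) * (ts - t1) ≤ n * ts := mul_le_mul_of_nonneg_left (by linarith) hnpos.le
        linarith)
      (by rw [hB]; linarith)
      (by
        intro z hz
        have h1 := hk z hz
        rw [hFu _ z (hRball hz)] at h1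
        refine h1.trans ?_
        rw [lg, lg]
        linarith)
      (by
        intro z hz t ht
        have h1 : u z t ≤ M := by
          apply hM t ⟨by linarith [ht.1], by linarith [ht.2]⟩
          exact subset_closure (hballΩ (hRball (sphere_subset_closedBall hz)))
        refine h1.trans ?_
        rw [lg]
        have hzR : ‖z - a‖ = R := by rw [← dist_eq_norm]; exact hz
        rw [ss, hzR]
        have h2 : Real.log (R ^ 2) ≤ Real.log (R ^ 2 + δ) :=
          Real.log_le_log (by positivity) (by linarith)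
        have h3 : 0 ≤ c / 2 - n * (t - t1) := by
          have : (n : ℝ) * (t - t1) ≤ n * ts :=
            mul_le_mul_of_nonneg_left (by linarith [ht.2]) hnpos.le
          linarith
        have h4 : c / 2 - n * (t - t1) ≤ c / 2 := by
          have : 0 ≤ (n : ℝ) * (t - t1) := mul_nonneg hnpos.le (by linarith [ht.1])
          linarith
        have h5 : -|Real.log (R ^ 2)| ≤ Real.log (R ^ 2 + δ) := (neg_abs_le _).trans h2
        have h6 : -(c / 2 * |Real.log (R ^ 2)|) ≤ (c / 2 - n * (t - t1)) * Real.log (R ^ 2 + δ) := by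
          have h7 : (c / 2 - n * (t - t1)) * (-|Real.log (R ^ 2)|) ≤
              (c / 2 - n * (t - t1)) * Real.log (R ^ 2 + δ) := mul_le_mul_of_nonneg_left h5 h3
          have h8 : (c / 2 - n * (t - t1)) * |Real.log (R ^ 2)| ≤ c / 2 * |Real.log (R ^ 2)| :=
            mul_le_mul_of_nonneg_right h4 (abs_nonneg _)
          linarith
        have h9 : 0 ≤ B * (t - t1) := mul_nonneg hBpos.le (by linarith [ht.1])
        linarith)
    have h1 := hpar a (mem_closedBall_self hRpos.le) ts ⟨ht1le, le_refl _⟩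
    refine h1.trans ?_
    rw [lg, ss, sub_self, norm_zero]
    have h2 : (0 : ℝ) ^ 2 + δ = δ := by ring
    rw [h2]
    have hlogδ : Real.log δ < 0 := Real.log_neg hδ hδ1
    have h3 : c / 4 ≤ c / 2 - n * (ts - t1) := by
      have : (n : ℝ) * (ts - t1) ≤ n * ts := mul_le_mul_of_nonneg_left (by linarith) hnpos.le
      linarith
    have h4 : (c / 2 - n * (ts - t1)) * Real.log δ ≤ c / 4 * Real.log δ :=
      mul_le_mul_of_nonpos_right h3 hlogδ.le
    have h5 : B * (ts - t1) ≤ B * ts := mul_le_mul_of_nonneg_left (by linarith) hBpos.le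
    linarith
  -- contradiction
  set K : ℝ := 4 / c * |B * ts + C0 - u a ts| + 1 with hK
  have hKpos : 0 < K := by positivity
  have h1 := main (Real.exp (-K)) (Real.exp_pos _) (by
    rw [Real.exp_lt_one_iff]; linarith)
  rw [Real.log_exp] at h1
  have h2 : c / 4 * K = |B * ts + C0 - u a ts| + c / 4 := by
    rw [hK]; field_simp
  have h3 := le_abs_self (B * ts + C0 - u a ts)
  linarith

end Pool.Agent.W804
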