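import Pool.Agent.W804.Sub

set_option autoImplicit false

open MeasureTheory Metric Set Filter Topology
open scoped ContDiff ComplexOrder

namespace Pool.Agent.W804

open Pool.Agent.H805R2

variable {n : ℕ}

lemma vol_tendsto (n : ℕ) (ρ : ℝ) (hρ : 0 < ρ) :
    Tendsto (fun η : ℝ => (volume : Measure (Cn n)).real (closedBall 0 (ρ + η))) (𝓝[>] 0)
      (𝓝 ((volume : Measure (Cn n)).real (closedBall 0 ρ))) := by
  have h1 : ∀ s : ℝ, 0 ≤ s → (volume : Measure (Cn n)).real (closedBall 0 s) =
      s ^ Module.finrank ℝ (Cn n) * (volume : Measure (Cn n)).real (ball 0 1) := by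
    intro s hs
    rw [Measure.real, Measure.addHaar_closedBall _ _ hs, ENNReal.toReal_mul,
      ENNReal.toReal_ofReal (by positivity), Measure.real]
  have h2 : Tendsto (fun η : ℝ => (ρ + η) ^ Module.finrank ℝ (Cn n) *
      (volume : Measure (Cn n)).real (ball 0 1)) (𝓝[>] 0)
      (𝓝 ((ρ + 0) ^ Module.finrank ℝ (Cn n) * (volume : Measure (Cn n)).real (ball 0 1))) := by
    apply Tendsto.mono_left _ nhdsWithin_le_nhds
    apply Continuous.tendsto
    fun_prop
  rw [add_zero, ← h1 ρ hρ.le] at h2
  refine h2.congr' ?_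
  filter_upwards [self_mem_nhdsWithin] with η hη
  have hη' : (0 : ℝ) < η := hη
  rw [h1 _ (by linarith)]

/-- Hartogs lemma -/
theorem hartogs (hn : 1 ≤ n) {a : Cn n} {r R : ℝ} (hR : R < r) {M : ℝ} (f : ℕ → Cn n → ℝ)
    (hf : ∀ k, ContDiff ℝ 2 (f k))
    (hpsh : ∀ k, ∀ z ∈ ball a r, ∀ b, 0 ≤ levi (f k) z b) (hM : ∀ k, ∀ z ∈ ball a r, f k z ≤ M)
    (h : Cn n → ℝ) (hh : Continuous h)
    (hlim : ∀ z ∈ ball a r, z ≠ a → ∀ ε > 0, ∀ᶠ k in atTop, f k z ≤ h z + ε)
    {ε : ℝ} (hε : 0 < ε) : ∀ᶠ k in atTop, ∀ z ∈ closedBall a R, f k z ≤ h z + ε := by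
  by_contra hcon
  rw [not_eventually] at hcon
  obtain ⟨φ, hφ, hP⟩ := extraction_of_frequently_atTop hcon
  push Not at hP
  choose y hy hyf using hP
  obtain ⟨zs, hzs, ψ, hψ, hlimz⟩ := (isCompact_closedBall a R).tendsto_subseq hy
  set g : ℕ → Cn n → ℝ := fun j => f (φ (ψ j)) with hg
  set z : ℕ → Cn n := fun j => y (ψ j) with hz
  have hsub : Tendsto (fun j => φ (ψ j)) atTop atTop := hφ.tendsto_atTop.comp hψ.tendsto_atTop
  have hzsb : zs ∈ ball a r := closedBall_subset_ball hR hzs
  obtain ⟨ρ, hρ, hρ1, hρ2⟩ : ∃ ρ > 0, closedBall zs (2 * ρ) ⊆ ball a r ∧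
      ∀ y ∈ closedBall zs (2 * ρ), |h y - h zs| ≤ ε / 8 := by
    obtain ⟨e1, he1, h1⟩ := Metric.isOpen_iff.1 isOpen_ball zs hzsb
    obtain ⟨e2, he2, h2⟩ := Metric.continuousAt_iff.1 (hh.continuousAt (x := zs)) (ε / 8) (by positivity)
    refine ⟨min e1 e2 / 4, by positivity, ?_, ?_⟩
    · intro y hy
      apply h1
      rw [mem_closedBall] at hy
      rw [mem_ball]
      have := min_le_left e1 e2
      have := lt_min he1 he2
      linarith
    · intro y hy
      rw [mem_closedBall] at hy
      have := min_le_right e1 e2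
      have := lt_min he1 he2
      have h3 := h2 (x := y) (by linarith)
      rw [Real.dist_eq] at h3
      exact h3.le
  set c : ℝ := h zs + ε / 4 with hc
  set M' : ℝ := max M (c + 1) with hM'
  have hM'M : M ≤ M' := le_max_left _ _
  have hM'c : 0 < M' - c := by have := le_max_right M (c + 1); linarith
  set D : Set (Cn n) := closedBall zs ρ with hD
  have hDsub : D ⊆ ball a r := (closedBall_subset_closedBall (by linarith)).trans hρ1
  set E : ℕ → Set (Cn n) := fun k => {x | x ∈ D ∧ ∃ j, k ≤ j ∧ c < g j x} with hE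
  have hgc : ∀ j, Continuous (g j) := fun j => (hf _).continuous
  have hEm : ∀ k, MeasurableSet (E k) := by
    intro k
    have : E k = D ∩ ⋃ j, ⋃ (_ : k ≤ j), {x | c < g j x} := by
      ext x
      simp only [hE, mem_ofPred_eq, mem_inter_iff, mem_iUnion, exists_prop]
    rw [this]
    apply isClosed_closedBall.measurableSet.inter
    exact MeasurableSet.iUnion fun j => MeasurableSet.iUnion fun _ =>
      (isOpen_lt continuous_const (hgc j)).measurableSet
  have hEanti : Antitone E := by
    intro k k' hkk x hx
    obtain ⟨h1, j, h2, h3⟩ := hx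
    exact ⟨h1, j, hkk.trans h2, h3⟩
  have hEint : (⋂ k, E k) ⊆ {a} := by
    intro x hx
    by_contra hxa
    rw [mem_iInter] at hx
    have hxD : x ∈ D := (hx 0).1
    have h1 := hlim x (hDsub hxD) hxa (ε / 8) (by positivity)
    have h2 := hsub.eventually h1
    obtain ⟨k, hk⟩ := eventually_atTop.1 h2
    obtain ⟨_, j, hj, hj2⟩ := hx k
    have h3 := hk j hj
    have h4 := hρ2 x (closedBall_subset_closedBall (by linarith) hxD)
    have h5 := (abs_le.1 h4).2
    have : g j x ≤ h x + ε / 8 := h3
    linarith
  have : Nonempty (Fin n) := ⟨⟨0, hn⟩⟩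
  have : Nontrivial (Cn n) := inferInstance
  have hnull : volume (⋂ k, E k) = 0 := measure_mono_null hEint (measure_singleton a)
  have hDfin : volume D ≠ ⊤ := (isCompact_closedBall zs ρ).measure_lt_top.ne
  have hElim : Tendsto (fun k => volume (E k)) atTop (𝓝 0) := by
    rw [← hnull]
    exact tendsto_measure_iInter_atTop (fun k => (hEm k).nullMeasurableSet) hEanti
      ⟨0, ((measure_mono fun x hx => hx.1).trans_lt (lt_top_iff_ne_top.2 hDfin)).ne⟩
  set v : ℝ → ℝ := fun s => (volume : Measure (Cn n)).real (closedBall 0 s) with hv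
  have hvρ : volume.real D = v ρ := by
    simp only [hv, hD, Measure.real]
    rw [Measure.addHaar_closedBall_center]
  have hDE : Tendsto (fun k => volume.real (D \ E k)) atTop (𝓝 (v ρ)) := by
    have h1 : ∀ k, volume.real (D \ E k) = volume.real D - volume.real (E k) := by
      intro k
      rw [measureReal_sdiff (fun x hx => hx.1) (hEm k)]
    simp_rw [h1, hvρ]
    have h2 : Tendsto (fun k => volume.real (E k)) atTop (𝓝 0) := by
      have := (ENNReal.tendsto_toReal ENNReal.zero_ne_top).comp hElim
      rw [ENNReal.toReal_zero] at this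
      exact this
    simpa using h2.const_sub (v ρ)
  -- main inequality
  have key : ∀ η, 0 < η → η < ρ / 2 → (M' - c) * v ρ ≤ (M' - c - 5 * ε / 8) * v (ρ + η) := by
    intro η hη hηρ
    have hev : ∀ᶠ j in atTop, (M' - c) * volume.real (D \ E j) ≤ (M' - c - 5 * ε / 8) * v (ρ + η) := by
      have hd : ∀ᶠ j in atTop, dist (z j) zs < η := Metric.tendsto_nhds.1 hlimz η hη
      filter_upwards [hd] with j hj
      have hS1 : closedBall (z j) (ρ + η) ⊆ closedBall zs (2 * ρ) := by
        apply closedBall_subset_closedBall'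
        linarith
      have hS2 : D ⊆ closedBall (z j) (ρ + η) := by
        apply closedBall_subset_closedBall'
        rw [dist_comm]
        linarith
      have h1 := ball_submean (hf (φ (ψ j))) (hpsh (φ (ψ j))) (z j) (ρ + η) (hS1.trans hρ1)
      have hint : IntegrableOn (g j) (closedBall (z j) (ρ + η)) :=
        (hgc j).continuousOn.integrableOn_compact (isCompact_closedBall _ _)
      have h2 : ∫ x in closedBall (z j) (ρ + η), (M' - g j x) =
          M' * v (ρ + η) - ∫ x in closedBall (z j) (ρ + η), g j x := by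
        rw [integral_sub (continuousOn_const.integrableOn_compact (isCompact_closedBall _ _)) hint,
          setIntegral_const, smul_eq_mul, mul_comm]
        congr 2
        simp only [hv, Measure.real]
        rw [Measure.addHaar_closedBall_center]
      have h3 : (M' - c) * volume.real (D \ E j) ≤ ∫ x in D \ E j, (M' - g j x) := by
        rw [mul_comm, ← smul_eq_mul, ← setIntegral_const]
        apply setIntegral_mono_on
        · exact continuousOn_const.integrableOn_compact (isCompact_closedBall _ _) |>.mono_set sdiff_subset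
        · exact (continuousOn_const.integrableOn_compact (isCompact_closedBall _ _)).mono_set sdiff_subset
            |>.sub (((hgc j).continuousOn.integrableOn_compact (isCompact_closedBall _ _)).mono_set sdiff_subset)
        · exact isClosed_closedBall.measurableSet.diff (hEm j)
        · intro x hx
          have : g j x ≤ c := by
            by_contra hlt
            push Not at hlt
            exact hx.2 ⟨hx.1, j, le_refl _, hlt⟩
          linarith
      have h4 : ∫ x in D \ E j, (M' - g j x) ≤ ∫ x in closedBall (z j) (ρ + η), (M' - g j x) := by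
        apply setIntegral_mono_set
        · exact (continuousOn_const.integrableOn_compact (isCompact_closedBall _ _)).sub hint
        · rw [EventuallyLE, ae_restrict_iff' isClosed_closedBall.measurableSet]
          refine Eventually.of_forall fun x hx => ?_
          have := hM (φ (ψ j)) x ((hS1.trans hρ1) hx)
          simp only [Pi.zero_apply]
          have e : g j x = f (φ (ψ j)) x := rfl
          linarith
        · exact (sdiff_subset.trans hS2).eventuallyLE
      have h5 : M' - g j (z j) ≤ M' - c - 5 * ε / 8 := by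
        have h6 := hyf (ψ j)
        have h7 := hρ2 (z j) (hS1 (mem_closedBall_self (by linarith)))
        have h8 := (abs_le.1 h7).1
        have h9 : h (z j) + ε < g j (z j) := h6
        linarith
      have hv0 : 0 ≤ v (ρ + η) := measureReal_nonneg
      have h1' : v (ρ + η) * g j (z j) ≤ ∫ x in closedBall (z j) (ρ + η), g j x := h1
      nlinarith
    exact le_of_tendsto (hDE.const_mul (M' - c)) hev
  have h10 : (M' - c) * v ρ ≤ (M' - c - 5 * ε / 8) * v ρ := by
    have h11 := (vol_tendsto n ρ hρ).const_mul (M' - c - 5 * ε / 8)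
    refine ge_of_tendsto h11 ?_
    have : Ioo (0 : ℝ) (ρ / 2) ∈ 𝓝[>] (0 : ℝ) := Ioo_mem_nhdsGT (by linarith)
    filter_upwards [this] with η hη
    exact key η hη.1 hη.2
  have hvpos : 0 < v ρ := by
    simp only [hv, Measure.real]
    apply ENNReal.toReal_pos
    · exact (measure_closedBall_pos volume _ hρ).ne'
    · exact (isCompact_closedBall _ _).measure_lt_top.ne
  nlinarith

end Pool.Agent.W804
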