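import Pool.Agent.Helper853.Df.Crit
import Pool.Agent.H805R2.Lite
import Pool.Agent.H805R2.Local1

set_option autoImplicit false

open MeasureTheory Metric Set Filter Topology
open scoped ContDiff ComplexOrder

namespace Pool.Agent.W804

open Pool.Agent.H805R2 Pool.Agent.Helper853.Df

variable {n : ℕ}

/-- circle sub-mean value property for functions with nonnegative Levi form -/
theorem circle_submean {f : Cn n → ℝ} (hf : ContDiff ℝ 2 f) (z b : Cn n)
    (h : ∀ ζ : ℂ, ‖ζ‖ < 1 → 0 ≤ levi f (z + ζ • b) b) :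
    f z ≤ Real.circleAverage (fun ζ : ℂ => f (z + ζ • b)) 0 1 := by
  set k : ℂ → ℝ := fun ζ => f (z + ζ • b) with hk
  have hkc : Continuous k := hf.continuous.comp (by fun_prop)
  have hγd : ∀ y : ℂ, HasDerivAt (fun ζ : ℂ => z + ζ • b) b y := by
    intro y
    have := ((hasDerivAt_id y).smul_const b).const_add z
    simpa using this
  have hγ1 : deriv (fun ζ : ℂ => z + ζ • b) = fun _ => b := funext fun y => (hγd y).deriv
  have hsub := submean_of_compare (k := k) hkc.continuousOn (by
    intro K hK1 hK2 hK3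
    have hm : ContinuousOn (fun y => k y + -(K y).re) (closedBall 0 1) :=
      hkc.continuousOn.add (Complex.continuous_re.comp_continuousOn hK1).neg
    have := max_principle2 hm (fun y hy => by linarith [hK3 y hy]) (fun y hy => by
      have hKev : ∀ᶠ w in 𝓝 y, DifferentiableAt ℂ K w := by
        filter_upwards [isOpen_ball.mem_nhds (mem_ball_zero_iff.mpr hy)] with w hw
        exact hK2.differentiableAt (isOpen_ball.mem_nhds hw)
      have hre : ContDiffAt ℝ 2 (fun y : ℂ => y.re) (K y) := Complex.reCLM.contDiff.contDiffAt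
      have hγ : ∀ᶠ w in 𝓝 y, DifferentiableAt ℂ (fun ζ : ℂ => z + ζ • b) w :=
        Eventually.of_forall fun w => (hγd w).differentiableAt
      have k1 := (SD_comp (γ := fun ζ : ℂ => z + ζ • b) (ζ := y) hf.contDiffAt hγ 1).add
        (SD_comp (γ := K) hre hKev 1).neg
      have k2 := (SD_comp (γ := fun ζ : ℂ => z + ζ • b) (ζ := y) hf.contDiffAt hγ Complex.I).add
        (SD_comp (γ := K) hre hKev Complex.I).neg
      refine ⟨_, ?_, ?_, _, _, k1, k2, ?_⟩
      · exact Eventually.of_forall fun w => le_refl _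
      · rfl
      · have hf' : fderiv ℝ (fun y : ℂ => y.re) = fun _ => Complex.reCLM := by
          ext1 y
          exact Complex.reCLM.fderiv
        have hf2 : fderiv ℝ (fun _ : ℂ => Complex.reCLM) (K y) = 0 :=
          (hasFDerivAt_const Complex.reCLM (K y)).fderiv
        rw [hf', hf2, hγ1]
        have hd2 : deriv (fun _ : ℂ => b) y = 0 := by simp
        rw [hd2]
        have h4 := h y hy
        unfold levi D2 at h4
        simp only [_root_.zero_apply, one_smul, one_pow, Complex.I_sq, neg_smul, map_neg,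
          smul_zero, map_zero]
        linarith) (z := 0) (by simp)
    linarith)
  rw [Real.circleAverage_def, smul_eq_mul]
  have h0 : k 0 = f z := by simp [hk]
  rw [h0] at hsub
  have hc : ∀ θ : ℝ, circleMap 0 1 θ = Complex.exp (θ * Complex.I) := by
    intro θ; simp [circleMap]
  simpa only [hc] using hsub

/-- integrating circle averages, local version -/
lemma rot_avg' (Φ : Cn n → ℝ) (hΦ : Continuous Φ) (c : ℝ) (r : ℝ)
    (h : ∀ ζ ∈ closedBall (0 : Cn n) r, c ≤ Real.circleAverage (fun w : ℂ => Φ (w • ζ)) 0 1) :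
    (volume : Measure (Cn n)).real (closedBall 0 r) * c ≤ ∫ ζ in closedBall (0 : Cn n) r, Φ ζ := by
  have hcont : Continuous (fun p : Cn n × ℝ => Φ (circleMap 0 1 p.2 • p.1)) := by fun_prop
  have hswap : ∫ ζ in closedBall (0 : Cn n) r, ∫ θ in Ioc 0 (2 * Real.pi), Φ (circleMap 0 1 θ • ζ) =
      ∫ θ in Ioc 0 (2 * Real.pi), ∫ ζ in closedBall (0 : Cn n) r, Φ (circleMap 0 1 θ • ζ) := by
    apply integral_integral_swap
    have h1 : IntegrableOn (fun p : Cn n × ℝ => Φ (circleMap 0 1 p.2 • p.1))
        (closedBall (0 : Cn n) r ×ˢ Icc 0 (2 * Real.pi)) :=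
      hcont.continuousOn.integrableOn_compact ((isCompact_closedBall _ _).prod isCompact_Icc)
    have h2 := h1.mono_set (prod_mono_right Ioc_subset_Icc_self)
    rw [IntegrableOn, Measure.volume_eq_prod, ← Measure.prod_restrict] at h2
    exact h2
  have hpi := Real.pi_pos
  have hin : ∀ θ : ℝ, ∫ ζ in closedBall (0 : Cn n) r, Φ (circleMap 0 1 θ • ζ) =
      ∫ ζ in closedBall (0 : Cn n) r, Φ ζ := by
    intro θ
    exact rot_integral Φ r _ (by simp)
  have hca : ∀ ζ, Real.circleAverage (fun w : ℂ => Φ (w • ζ)) 0 1 =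
      (2 * Real.pi)⁻¹ * ∫ θ in Ioc 0 (2 * Real.pi), Φ (circleMap 0 1 θ • ζ) := by
    intro ζ
    rw [Real.circleAverage_def, smul_eq_mul, intervalIntegral.integral_of_le (by positivity)]
  have hcacont : Continuous (fun ζ => Real.circleAverage (fun w : ℂ => Φ (w • ζ)) 0 1) := by
    simp only [Real.circleAverage_def, smul_eq_mul]
    apply Continuous.mul continuous_const
    apply intervalIntegral.continuous_parametric_intervalIntegral_of_continuous' (f := fun ζ θ => Φ (circleMap 0 1 θ • ζ))
    exact hcont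
  calc (volume : Measure (Cn n)).real (closedBall 0 r) * c
      = ∫ ζ in closedBall (0 : Cn n) r, c := by
        rw [setIntegral_const, smul_eq_mul]
    _ ≤ ∫ ζ in closedBall (0 : Cn n) r, Real.circleAverage (fun w : ℂ => Φ (w • ζ)) 0 1 := by
        apply setIntegral_mono_on _ _ isClosed_closedBall.measurableSet h
        · exact continuousOn_const.integrableOn_compact (isCompact_closedBall _ _)
        · exact hcacont.continuousOn.integrableOn_compact (isCompact_closedBall _ _)
    _ = (2 * Real.pi)⁻¹ * ∫ ζ in closedBall (0 : Cn n) r, ∫ θ in Ioc 0 (2 * Real.pi), Φ (circleMap 0 1 θ • ζ) := by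
        simp_rw [hca]
        rw [integral_const_mul]
    _ = (2 * Real.pi)⁻¹ * ∫ θ in Ioc 0 (2 * Real.pi), ∫ ζ in closedBall (0 : Cn n) r, Φ ζ := by
        rw [hswap]
        simp_rw [hin]
    _ = ∫ ζ in closedBall (0 : Cn n) r, Φ ζ := by
        rw [setIntegral_const]
        have : (volume : Measure ℝ).real (Ioc 0 (2 * Real.pi)) = 2 * Real.pi := by
          rw [Measure.real, Real.volume_Ioc, sub_zero, ENNReal.toReal_ofReal (by positivity)]
        rw [this, smul_eq_mul, ← mul_assoc, inv_mul_cancel₀ (by positivity), one_mul]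

/-- sub-mean value property over balls -/
theorem ball_submean {f : Cn n → ℝ} (hf : ContDiff ℝ 2 f) {V : Set (Cn n)}
    (hV : ∀ z ∈ V, ∀ b, 0 ≤ levi f z b) (x : Cn n) (ρ : ℝ) (hρ : closedBall x ρ ⊆ V) :
    (volume : Measure (Cn n)).real (closedBall 0 ρ) * f x ≤ ∫ y in closedBall x ρ, f y := by
  have h1 : (volume : Measure (Cn n)).real (closedBall 0 ρ) * f x ≤
      ∫ ζ in closedBall (0 : Cn n) ρ, f (x + ζ) := by
    apply rot_avg' (fun ζ => f (x + ζ)) (hf.continuous.comp (by fun_prop)) (f x) ρ
    intro ζ hζ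
    apply circle_submean hf x ζ
    intro w hw
    apply hV
    apply hρ
    rw [mem_closedBall, dist_eq_norm, add_sub_cancel_left, norm_smul]
    rw [mem_closedBall_zero_iff] at hζ
    calc ‖w‖ * ‖ζ‖ ≤ 1 * ‖ζ‖ := by gcongr
      _ ≤ ρ := by rw [one_mul]; exact hζ
  refine h1.trans (le_of_eq ?_)
  have hmp : MeasurePreserving (fun ζ : Cn n => x + ζ) volume volume :=
    measurePreserving_add_left volume x
  have h3 := hmp.setIntegral_preimage_emb (MeasurableEquiv.addLeft x).measurableEmbedding
    (fun y => f y) (closedBall x ρ)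
  have h2 : (fun ζ : Cn n => x + ζ) ⁻¹' closedBall x ρ = closedBall (0 : Cn n) ρ := by
    ext ζ; simp [dist_eq_norm]
  rw [h2] at h3
  exact h3

end Pool.Agent.W804
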