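import Pool.Agent.W982.TA.Stm

set_option autoImplicit false

namespace Pool.Agent.W982.TA

theorem g2 : TaskG2 := by
  intro q v r hv
  constructor
  · rintro ⟨a, b, ha, hb, hab, h⟩
    have h1 := congrArg Prod.fst h
    have h2 := congrArg Prod.snd h
    simp only [emb, Prod.fst_add, Prod.snd_add, Prod.smul_fst, Prod.smul_snd, smul_eq_mul,
      Prod.fst_sub, Prod.snd_sub, Int.cast_add, Int.cast_sub] at h1 h2
    have hbez : v.1 * Int.gcdA v.1 v.2 + v.2 * Int.gcdB v.1 v.2 = 1 := by
      rw [← Int.gcd_eq_gcd_ab, hv]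
      rfl
    set x := Int.gcdA v.1 v.2
    set y := Int.gcdB v.1 v.2
    have hbezr : (v.1 : ℝ) * x + (v.2 : ℝ) * y = 1 := by exact_mod_cast hbez
    have e1 : (r.1 : ℝ) - q.1 = (b - a) * v.1 := by
      have : a = 1 - b := by linarith
      subst this
      linarith
    have e2 : (r.2 : ℝ) - q.2 = (b - a) * v.2 := by
      have : a = 1 - b := by linarith
      subst this
      linarith
    have hs : (((r.1 - q.1) * x + (r.2 - q.2) * y : ℤ) : ℝ) = b - a := by
      push_cast
      rw [e1, e2]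
      linear_combination (b - a) * hbezr
    have hlt : (((r.1 - q.1) * x + (r.2 - q.2) * y : ℤ) : ℝ) < 1 := by rw [hs]; linarith
    have hgt : (-1 : ℝ) < (((r.1 - q.1) * x + (r.2 - q.2) * y : ℤ) : ℝ) := by rw [hs]; linarith
    have hlt' : (r.1 - q.1) * x + (r.2 - q.2) * y < 1 := by exact_mod_cast hlt
    have hgt' : -1 < (r.1 - q.1) * x + (r.2 - q.2) * y := by exact_mod_cast hgt
    have h0 : (r.1 - q.1) * x + (r.2 - q.2) * y = 0 := by omega
    rw [h0, Int.cast_zero] at hs
    rw [← hs, zero_mul] at e1 e2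
    have f1 : (r.1 : ℝ) = q.1 := by linarith
    have f2 : (r.2 : ℝ) = q.2 := by linarith
    exact Prod.ext (by exact_mod_cast f1) (by exact_mod_cast f2)
  · rintro rfl
    refine ⟨1 / 2, 1 / 2, by norm_num, by norm_num, by norm_num, ?_⟩
    apply Prod.ext
    · simp only [emb, Prod.fst_add, Prod.smul_fst, smul_eq_mul, Prod.fst_sub, Int.cast_add,
        Int.cast_sub]
      ring
    · simp only [emb, Prod.snd_add, Prod.smul_snd, smul_eq_mul, Prod.snd_sub, Int.cast_add,
        Int.cast_sub]
      ring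

end Pool.Agent.W982.TA
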